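import Pool.Agent.Y223.G.AllE
import Pool.Agent.Y363.G.Atlas

/-!
# Graded atlases and models: the charts of the models dominate the charts of the atlas

The proofs are those of `Pool.Agent.Y363.G.t_ATLAS`, `Pool.Agent.Y574.G.t_ASTEP` and
`Pool.Agent.Y349.G.t_MODEL`, with an additional conclusion.
-/

set_option autoImplicit false
set_option linter.unusedVariables false
set_option linter.unusedSectionVars false

namespace Pool.Agent.N864.GT

open Pool.Agent.Y223.G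

section atlas

open Pool.Agent.Y363.G

/-- **Compatible weighted blowups give an atlas.** -/
theorem atlas_dom (k K : Type) [CommRing k] [IsDomain k] [IsNoetherianRing k] [Field K]
    [Algebra k K] (_ : Function.Injective (algebraMap k K)) (P : Prop) (M₀ : Submodule k K)
    (Kf : Subfield K) (𝒜 : Type) [Finite 𝒜] (R : 𝒜 → Subalgebra k (LP K)) (hh : 𝒜 → K)
    (hCh : ∀ a, Ch (R a)) (hh0 : ∀ a, hh a ≠ 0) (hhK : ∀ a, hh a ∈ Kf)
    (hRK : ∀ a (d : ℤ) x, hm d x ∈ R a → x ∈ Kf) (hrt : ∀ a b, hm 0 (hh b / hh a) ∈ R a)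
    (hgl : ∀ a b, ∀ f ∈ R b, ∃ n : ℕ, hm 0 (hh b / hh a) ^ n * f ∈ R a)
    (hcv : ∀ V : ValuationSubring K, (∀ c : k, algebraMap k K c ∈ V) →
      ∃ a, ∀ x, hm 0 x ∈ R a → x ∈ V)
    (hfr : ∀ a, ∀ x ∈ Kf, ∃ y y' : K, hm 0 y ∈ R a ∧ hm 0 y' ∈ R a ∧ y' ≠ 0 ∧ x = y / y')
    (hve : P → ∀ a, ∃ s : k, s ≠ 0 ∧ hm 1 (algebraMap k K s) ∈ R a)
    (hmo : P → ∃ n : ℕ, 1 ≤ n ∧ ∀ a, hh a ∈ sat (M₀ ^ n) ∧
      (∀ m ∈ M₀ ^ n, ∃ s : k, s ≠ 0 ∧ hm 0 (s • (m / hh a)) ∈ R a) ∧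
      ∀ f, hm 0 f ∈ R a → ∃ N₀ : ℕ, ∀ N, N₀ ≤ N → hh a ^ N * f ∈ sat (M₀ ^ (n * N))) :
    ∃ (ρ : ℕ) (T : Type) (_ : Finite T) (C : T → Subalgebra k (LP K)) (H : T → K),
      AtlasG P M₀ Kf ρ C H ∧ ∀ t, ∃ a, ∀ x, hm 0 x ∈ R a → hm 0 x ∈ C t := by
  classical
  choose T hT e η hR he0 hη0 hrad using fun a => exists_fam (hCh a)
  have h𝒜f : Fintype 𝒜 := Fintype.ofFinite 𝒜
  have hTf : ∀ a, Fintype (T a) := fun a => Fintype.ofFinite (T a)
  let Q := Σ a, T a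
  let e' : Q → ℕ := fun p => e p.1 p.2
  let η' : Q → K := fun p => η p.1 p.2
  have he' : ∀ p, 0 < e' p := fun p => he0 p.1 p.2
  have hη'0 : ∀ p, η' p ≠ 0 := fun p => hη0 p.1 p.2
  have hRp : ∀ p, hm (e' p) (η' p) ∈ R p.1 := fun p => hR p.1 p.2
  have hη'K : ∀ p, η' p ∈ Kf := fun p => hRK p.1 _ _ (hRp p)
  let E : ℕ := ∏ p, e' p
  have hE0 : 0 < E := Finset.prod_pos fun j _ => he' j
  let q : Q → ℕ := fun p => E / e' p
  have hq : ∀ p, q p * e' p = E := fun p =>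
    Nat.div_mul_cancel (Finset.dvd_prod_of_mem e' (Finset.mem_univ p))
  have hqE : ∀ p, q p ≤ E := fun p => Nat.div_le_self _ _
  have hq1 : ∀ p, 1 ≤ q p := by
    intro p
    rcases Nat.eq_zero_or_pos (q p) with h1 | h1
    · have := hq p
      rw [h1, zero_mul] at this
      omega
    · exact h1
  choose n1 hn1 using fun (a : 𝒜) (p : Q) => hgl a p.1 _ (hRp p)
  let N1 : ℕ := Finset.univ.sup fun a => Finset.univ.sup (n1 a)
  have hN1 : ∀ a p, n1 a p ≤ N1 := fun a p => (Finset.le_sup (f := n1 a) (Finset.mem_univ p)).trans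
    (Finset.le_sup (f := fun a => Finset.univ.sup (n1 a)) (Finset.mem_univ a))
  -- the elements `η ^ q` have degree zero
  have hηq : ∀ p, hm 0 (η' p ^ q p) ∈ R p.1 := by
    intro p
    have h1 := (R p.1).pow_mem ((hCh p.1).cf _ _ (hRp p)) (q p)
    rw [hm_pow, mul_zero] at h1
    exact h1
  obtain ⟨N2, hN2⟩ : ∃ N2 : ℕ, P → ∃ n : ℕ, 1 ≤ n ∧ (∀ a, hh a ∈ sat (M₀ ^ n) ∧
      (∀ m ∈ M₀ ^ n, ∃ s : k, s ≠ 0 ∧ hm 0 (s • (m / hh a)) ∈ R a) ∧
      ∀ f, hm 0 f ∈ R a → ∃ N₀ : ℕ, ∀ N, N₀ ≤ N → hh a ^ N * f ∈ sat (M₀ ^ (n * N))) ∧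
      ∀ p, ∀ N, N2 ≤ N → hh p.1 ^ N * η' p ^ q p ∈ sat (M₀ ^ (n * N)) := by
    by_cases hP : P
    · obtain ⟨n, hn, h1⟩ := hmo hP
      choose N0 hN0 using fun p : Q => (h1 p.1).2.2 _ (hηq p)
      refine ⟨Finset.univ.sup N0, fun _ => ⟨n, hn, h1, fun p N hN => hN0 p N ?_⟩⟩
      exact (Finset.le_sup (f := N0) (Finset.mem_univ p)).trans hN
    · exact ⟨0, fun h => absurd h hP⟩
  let N : ℕ := N1 * E + N2 + 1
  have F1 : ∀ (a : 𝒜) (p : Q) (m c : ℕ), m * N1 ≤ c →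
      hm 0 (hh p.1 / hh a) ^ c * hm (e' p) (η' p) ^ m ∈ R a := by
    intro a p m c hc
    obtain ⟨b, rfl⟩ := Nat.exists_eq_add_of_le hc
    obtain ⟨d, hd⟩ := Nat.exists_eq_add_of_le (hN1 a p)
    have h3 : hm 0 (hh p.1 / hh a) ^ (m * N1 + b) * hm (e' p) (η' p) ^ m =
        hm 0 (hh p.1 / hh a) ^ (m * d + b) *
          (hm 0 (hh p.1 / hh a) ^ n1 a p * hm (e' p) (η' p)) ^ m := by
      rw [hd]; ring
    rw [h3]
    exact (R a).mul_mem ((R a).pow_mem (hrt a p.1) _) ((R a).pow_mem (hn1 a p) _)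
  let H : Q → K := fun p => hh p.1 ^ N * η' p ^ q p
  have hH0 : ∀ p, H p ≠ 0 := fun p => mul_ne_zero (pow_ne_zero _ (hh0 _)) (pow_ne_zero _ (hη'0 p))
  have hκ : ∀ p, hm (e' p) (η' p) ^ (q p) = hm E (η' p ^ q p) := by
    intro p
    rw [hm_pow]
    congr 1
    exact_mod_cast hq p
  have htr : ∀ p p' : Q, hm (e' p) (η' p) ^ q p * hm 0 (H p' / H p) =
        hm 0 (hh p'.1 / hh p.1) ^ N * hm (e' p') (η' p') ^ q p' := by
    intro p p'
    rw [hκ, hκ, hm_mul, hm_pow, hm_mul]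
    congr 1
    · ring
    · change η' p ^ q p * (hh p'.1 ^ N * η' p' ^ q p' / (hh p.1 ^ N * η' p ^ q p)) = _
      have e1 := hh0 p.1
      have e2 := hη'0 p
      rw [div_pow]
      field_simp
  have hinvp : ∀ p, hm (-(e' p : ℤ)) (η' p)⁻¹ ∈ loc (R p.1) (hm (e' p) (η' p)) (hRp p) := by
    intro p
    refine inv_mem_loc _ _ _ _ ?_
    rw [hm_mul, add_neg_cancel, mul_inv_cancel₀ (hη'0 p), hm_one]
  refine ⟨Finset.univ.sup e', Q, inferInstance,
    fun p => loc (R p.1) (hm (e' p) (η' p)) (hRp p), H, ?_,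
    fun p => ⟨p.1, fun x hx => le_loc _ _ _ hx⟩⟩
  refine
    { H0 := hH0
      HK := fun p => Kf.mul_mem (Kf.pow_mem (hhK p.1) _) (Kf.pow_mem (hη'K p) _)
      ft := fun p => ft_loc (hCh p.1).ft (hRp p) (isUnit_hm (hη'0 p))
      rg := fun p => (hCh p.1).rg (e' p) (η' p) (hRp p) (he' p) (hη'0 p)
      gr := fun p => gr_loc (hCh p.1).gr (hη'0 p) (hRp p)
      ss := fun p => le_loc _ _ _ (hCh p.1).ss
      un := ?_
      fr := ?_
      inF := ?_
      rt := ?_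
      gl := ?_
      cv := ?_
      ve := ?_
      mo := ?_ }
  · intro p
    exact ⟨e' p, he' p, Finset.le_sup (f := e') (Finset.mem_univ p), η' p, hη'0 p,
      le_loc _ _ _ (hRp p), hinvp p⟩
  · intro p x hx
    obtain ⟨y, y', hy, hy', h0, hxy⟩ := hfr p.1 x hx
    exact ⟨y, y', le_loc _ _ _ hy, le_loc _ _ _ hy', h0, hxy⟩
  · rintro p d x ⟨n, hn⟩
    rw [hm_pow, hm_mul] at hn
    have h1 := hRK p.1 _ _ hn
    have h2 : x = (η' p ^ n * x) / η' p ^ n := by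
      have e2 := hη'0 p
      field_simp
    rw [h2]
    exact Kf.div_mem h1 (Kf.pow_mem (hη'K p) n)
  · intro p p'
    refine ⟨q p, ?_⟩
    rw [htr]
    refine F1 p.1 p' _ _ ?_
    change q p' * N1 ≤ N1 * E + N2 + 1
    have := Nat.mul_le_mul_left N1 (hqE p')
    rw [mul_comm (q p') N1]
    omega
  · rintro p p' f ⟨m, hm'⟩
    obtain ⟨n2, hn2⟩ := hgl p.1 p'.1 _ hm'
    let n := m + n2
    refine ⟨n, q p * n, ?_⟩
    have h2 : m ≤ q p' * n := by
      have := hq1 p'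
      calc m ≤ n := Nat.le_add_right _ _
        _ ≤ q p' * n := Nat.le_mul_of_pos_left _ this
    obtain ⟨c', hc'⟩ := Nat.exists_eq_add_of_le h2
    have h3 : c' * N1 + n2 ≤ N * n := by
      have h4 : c' * N1 ≤ q p' * n * N1 := Nat.mul_le_mul_right _ (by omega)
      have h5 : q p' * n * N1 ≤ E * n * N1 :=
        Nat.mul_le_mul_right _ (Nat.mul_le_mul_right _ (hqE p'))
      have h6 : N * n = E * n * N1 + N2 * n + n := by
        change (N1 * E + N2 + 1) * n = _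
        ring
      have h7 : n2 ≤ n := Nat.le_add_left _ _
      omega
    obtain ⟨d', hd'⟩ := Nat.exists_eq_add_of_le h3
    have h1 : hm (e' p) (η' p) ^ (q p * n) * (hm 0 (H p' / H p) ^ n * f) =
        hm 0 (hh p'.1 / hh p.1) ^ d' *
          ((hm 0 (hh p'.1 / hh p.1) ^ (c' * N1) * hm (e' p') (η' p') ^ c') *
          (hm 0 (hh p'.1 / hh p.1) ^ n2 * (hm (e' p') (η' p') ^ m * f))) := by
      rw [pow_mul, ← mul_assoc, ← mul_pow, htr, mul_pow, ← pow_mul, ← pow_mul, hd', hc']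
      ring
    rw [h1]
    exact (R p.1).mul_mem ((R p.1).pow_mem (hrt _ _) _)
      ((R p.1).mul_mem (F1 p.1 p' _ _ le_rfl) hn2)
  · intro V hV
    obtain ⟨a, ha⟩ := hcv V hV
    obtain ⟨t, ht⟩ := cover_cv (hCh a) (hR := hR a) (hη0 a) (hrad a) V
      (fun f hf d => ha _ ((hCh a).cf d _ ((hCh a).gr f hf d)))
    exact ⟨⟨a, t⟩, ht⟩
  · intro hP p
    obtain ⟨s, hs, h1⟩ := hve hP p.1
    exact ⟨s, hs, le_loc _ _ _ h1⟩
  · intro hP
    obtain ⟨n, hn, h1, h2⟩ := hN2 hP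
    refine ⟨n * N, Nat.mul_pos hn (Nat.succ_pos _), fun p => ⟨?_, ?_, ?_⟩⟩
    · exact h2 p N (by change N2 ≤ N1 * E + N2 + 1; omega)
    · intro m hm'
      rw [pow_mul] at hm'
      obtain ⟨s, hs, h3⟩ := div_pow_mem (h1 p.1).2.1 N m hm'
      obtain ⟨s0, hs0, h4⟩ := hve hP p.1
      refine ⟨s * s0 ^ (q p * e' p), mul_ne_zero hs (pow_ne_zero _ hs0), ?_⟩
      have h5 := (loc (R p.1) (hm (e' p) (η' p)) (hRp p)).mul_mem
        (le_loc (R p.1) (hm (e' p) (η' p)) (hRp p) h3)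
        ((loc (R p.1) (hm (e' p) (η' p)) (hRp p)).mul_mem
          (le_loc (R p.1) (hm (e' p) (η' p)) (hRp p) ((R p.1).pow_mem h4 (q p * e' p)))
          ((loc (R p.1) (hm (e' p) (η' p)) (hRp p)).pow_mem (hinvp p) (q p)))
      rw [hm_pow, hm_pow, hm_mul, hm_mul] at h5
      have e5 : (0 : ℤ) + (((q p * e' p : ℕ) : ℤ) * 1 + (q p : ℤ) * -(e' p : ℤ)) = 0 := by
        push_cast
        ring
      rw [e5] at h5
      have e6 : s • (m / hh p.1 ^ N) * (algebraMap k K s0 ^ (q p * e' p) * (η' p)⁻¹ ^ q p) =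
          (s * s0 ^ (q p * e' p)) • (m / H p) := by
        change _ = (s * s0 ^ (q p * e' p)) • (m / (hh p.1 ^ N * η' p ^ q p))
        rw [Algebra.smul_def, Algebra.smul_def, map_mul, map_pow, inv_pow]
        have e1 := pow_ne_zero N (hh0 p.1)
        have e2 := pow_ne_zero (q p) (hη'0 p)
        field_simp
      rw [e6] at h5
      exact h5
    · rintro f ⟨j, hj⟩
      rw [hm_pow, hm_mul] at hj
      have h3 := (hCh p.1).cf _ _ hj
      obtain ⟨i, hi⟩ := Nat.exists_eq_add_of_le (Nat.le_mul_of_pos_left j (hq1 p))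
      have h4 : hm 0 (η' p ^ (q p * j) * f) ∈ R p.1 := by
        have h5 := (R p.1).mul_mem ((R p.1).pow_mem ((hCh p.1).cf _ _ (hRp p)) i) h3
        rw [hm_pow, hm_mul, mul_zero, add_zero] at h5
        rw [hi, pow_add]
        have e7 : η' p ^ j * η' p ^ i * f = η' p ^ i * (η' p ^ j * f) := by ring
        rw [e7]
        exact h5
      obtain ⟨N3, hN3⟩ := (h1 p.1).2.2 _ h4
      refine ⟨N3 + j, fun N' hN' => ?_⟩
      obtain ⟨l, rfl⟩ := Nat.exists_eq_add_of_le (show j ≤ N' by omega)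
      have h6 := hN3 (l + N * j) (by
        have : 0 ≤ N * j := Nat.zero_le _
        omega)
      have h7 := sat_pow (h2 p (N1 * E + N2) (by omega)) l
      have h8 := sat_mul h7 h6
      rw [← pow_mul, ← pow_add] at h8
      have e8 : n * (N1 * E + N2) * l + n * (l + N * j) = n * N * (j + l) := by
        change n * (N1 * E + N2) * l + n * (l + (N1 * E + N2 + 1) * j) =
          n * (N1 * E + N2 + 1) * (j + l)
        ring
      rw [e8] at h8
      have e9 : (hh p.1 ^ (N1 * E + N2) * η' p ^ q p) ^ l *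
          (hh p.1 ^ (l + N * j) * (η' p ^ (q p * j) * f)) = H p ^ (j + l) * f := by
        change _ = (hh p.1 ^ (N1 * E + N2 + 1) * η' p ^ q p) ^ (j + l) * f
        change (hh p.1 ^ (N1 * E + N2) * η' p ^ q p) ^ l *
          (hh p.1 ^ (l + (N1 * E + N2 + 1) * j) * (η' p ^ (q p * j) * f)) = _
        rw [mul_pow, mul_pow, ← pow_mul, ← pow_mul, ← pow_mul, ← pow_mul]
        ring
      rw [e9] at h8
      exact h8


end atlas

section astep

open Pool.Agent.Y574.G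

theorem astep_dom (hgens : S_GENS) (hval : S_VAL) (hlowft : S_LOWFT) (hlowreg : S_LOWREG)
    (k K : Type) [CommRing k] [IsDomain k] [IsNoetherianRing k] [Field K]
    [Algebra k K] (_ : Function.Injective (algebraMap k K)) (P : Prop) (M₀ : Submodule k K)
    (Kf : Subfield K) (ρ : ℕ) (hρ : 2 ≤ ρ) (T : Type) [Finite T] (C : T → Subalgebra k (LP K))
    (H : T → K) (h : AtlasG P M₀ Kf ρ C H) :
    ∃ (T' : Type) (_ : Finite T') (C' : T' → Subalgebra k (LP K)) (H' : T' → K),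
      AtlasG P M₀ Kf (ρ - 1) C' H' ∧ ∀ t', ∃ t, ∀ x, hm 0 x ∈ C t → hm 0 x ∈ C' t' := by
  classical
  have hρ0 : (0 : ℤ) < ρ := by exact_mod_cast (by omega : 0 < ρ)
  have hρ1 : (1 : ℤ) < ρ := by exact_mod_cast (by omega : 1 < ρ)
  choose r hr hrρ u hu0 hu hu' using h.un
  choose J hJ hJn d x hx hD using fun t => hgens k K (C t) (h.ft t) (h.gr t) ρ (r t) hρ (hr t)
    (hrρ t) (u t) (hu0 t) (hu t) (h.ss t)
  let L : ℕ := ρ.factorial
  have hL0 : 0 < L := Nat.factorial_pos ρ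
  have hLd : ∀ e : ℕ, 0 < e → e ≤ ρ → e ∣ L := fun e he heρ => Nat.dvd_factorial he heρ
  let U : T → K := fun t => u t ^ (L / r t)
  have hU0 : ∀ t, U t ≠ 0 := fun t => pow_ne_zero _ (hu0 t)
  have hU : ∀ t, hm L (U t) ∈ C t := by
    intro t
    have h1 := (C t).pow_mem (hu t) (L / r t)
    rw [hm_pow] at h1
    have h2 : ((L / r t : ℕ) : ℤ) * r t = L := by
      exact_mod_cast Nat.div_mul_cancel (hLd _ (hr t) (hrρ t))
    rwa [h2] at h1
  have hU' : ∀ t, hm (-(L : ℤ)) (U t)⁻¹ ∈ C t := by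
    intro t
    have h1 := (C t).pow_mem (hu' t) (L / r t)
    rw [hm_pow, inv_pow] at h1
    have h2 : ((L / r t : ℕ) : ℤ) * r t = L := by
      exact_mod_cast Nat.div_mul_cancel (hLd _ (hr t) (hrρ t))
    have h3 : ((L / r t : ℕ) : ℤ) * -(r t : ℤ) = -(L : ℤ) := by rw [mul_neg, h2]
    rwa [h3] at h1
  let T' := Σ t, J t
  have hfinJ : ∀ t, Fintype (J t) := fun t => Fintype.ofFinite _
  have hfinT : Fintype T := Fintype.ofFinite T
  let q : T' → ℕ := fun p => L / d p.1 p.2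
  have hq : ∀ p : T', q p * d p.1 p.2 = L := fun p =>
    Nat.div_mul_cancel (hLd _ (hx p.1 p.2).1 (hx p.1 p.2).2.1.le)
  have hqL : ∀ p : T', q p ≤ L := fun p => Nat.div_le_self _ _
  have hq1 : ∀ p : T', 1 ≤ q p := by
    intro p
    by_contra hc
    have : q p = 0 := by omega
    have h1 := hq p
    rw [this, zero_mul] at h1
    omega
  let hh : T' → K := fun p => (U p.1)⁻¹ * x p.1 p.2 ^ q p
  have hh0 : ∀ p, hh p ≠ 0 := fun p => mul_ne_zero (inv_ne_zero (hU0 _))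
    (pow_ne_zero _ (hx p.1 p.2).2.2.1)
  have hxm : ∀ p : T', hm (d p.1 p.2) (x p.1 p.2) ∈ C p.1 := fun p => (hx p.1 p.2).2.2.2
  have hxpow : ∀ p : T', hm (d p.1 p.2) (x p.1 p.2) ^ q p = hm L (x p.1 p.2 ^ q p) := by
    intro p
    rw [hm_pow]
    congr 1
    exact_mod_cast hq p
  have hhC : ∀ p : T', hm 0 (hh p) ∈ C p.1 := by
    intro p
    have h1 := (C p.1).mul_mem (hU' p.1) ((C p.1).pow_mem (hxm p) (q p))
    rw [hxpow, hm_mul, neg_add_cancel] at h1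
    exact h1
  -- the modification
  obtain ⟨n₀, N3, hmo⟩ : ∃ n₀ N3 : ℕ, P → 1 ≤ n₀ ∧ (∀ t, H t ∈ sat (M₀ ^ n₀) ∧
      (∀ m ∈ M₀ ^ n₀, ∃ s : k, s ≠ 0 ∧ hm 0 (s • (m / H t)) ∈ C t) ∧
      ∀ f, hm 0 f ∈ C t → ∃ N₀ : ℕ, ∀ N, N₀ ≤ N → H t ^ N * f ∈ sat (M₀ ^ (n₀ * N))) ∧
      ∀ (p : T') (N : ℕ), N3 ≤ N → H p.1 ^ N * hh p ∈ sat (M₀ ^ (n₀ * N)) := by
    by_cases hP : P
    · obtain ⟨n₀, hn1, hn2⟩ := h.mo hP
      choose N₀ hN₀ using fun p : T' => (hn2 p.1).2.2 (hh p) (hhC p)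
      refine ⟨n₀, Finset.univ.sup N₀, fun _ => ⟨hn1, hn2, fun p N hN => hN₀ p N ?_⟩⟩
      exact (Finset.le_sup (f := N₀) (Finset.mem_univ p)).trans hN
    · exact ⟨0, 0, fun h' => absurd h' hP⟩
  -- the constants
  choose n1 hn1 using fun (t : T) (p : T') => h.gl t p.1 _ (hxm p)
  choose n2 hn2 using fun (t t' : T) => h.gl t t' _ (hU' t')
  let N1 : ℕ := Finset.univ.sup fun t => Finset.univ.sup (n1 t)
  let N2 : ℕ := Finset.univ.sup fun t => Finset.univ.sup (n2 t)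
  have hN1 : ∀ t p, n1 t p ≤ N1 := fun t p => (Finset.le_sup (f := n1 t) (Finset.mem_univ p)).trans
    (Finset.le_sup (f := fun t => Finset.univ.sup (n1 t)) (Finset.mem_univ t))
  have hN2 : ∀ t p, n2 t p ≤ N2 := fun t p => (Finset.le_sup (f := n2 t) (Finset.mem_univ p)).trans
    (Finset.le_sup (f := fun t => Finset.univ.sup (n2 t)) (Finset.mem_univ t))
  let N : ℕ := L * N1 + N2 + 1 + N3
  have hzlow : ∀ t t', hm 0 (H t' / H t) ∈ low (C t) ρ := fun t t' => mem_low (h.rt t t') hρ0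
  -- first estimate
  have F1 : ∀ (t : T) (p : T') (m a : ℕ), m * N1 ≤ a →
      hm 0 (H p.1 / H t) ^ a * hm (d p.1 p.2) (x p.1 p.2) ^ m ∈ low (C t) ρ := by
    intro t p m a ha
    obtain ⟨b, rfl⟩ := Nat.exists_eq_add_of_le ha
    obtain ⟨c, hc⟩ := Nat.exists_eq_add_of_le (hN1 t p)
    have h1 : hm 0 (H p.1 / H t) ^ n1 t p * hm (d p.1 p.2) (x p.1 p.2) ∈ low (C t) ρ := by
      have h2 := hn1 t p
      rw [hm_pow, hm_mul] at h2 ⊢
      refine mem_low h2 ?_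
      rw [mul_zero, zero_add]
      exact_mod_cast (hx p.1 p.2).2.1
    have h3 : hm 0 (H p.1 / H t) ^ (m * N1 + b) * hm (d p.1 p.2) (x p.1 p.2) ^ m =
        hm 0 (H p.1 / H t) ^ (m * c + b) *
          (hm 0 (H p.1 / H t) ^ n1 t p * hm (d p.1 p.2) (x p.1 p.2)) ^ m := by
      rw [hc]; ring
    rw [h3]
    exact (low (C t) ρ).mul_mem ((low (C t) ρ).pow_mem (hzlow t p.1) _)
      ((low (C t) ρ).pow_mem h1 _)
  have F2 : ∀ (t t' : T) (m a : ℕ), m * N2 ≤ a →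
      hm 0 (H t' / H t) ^ a * hm 0 ((U t')⁻¹ * U t) ^ m ∈ low (C t) ρ := by
    intro t t' m a ha
    obtain ⟨b, rfl⟩ := Nat.exists_eq_add_of_le ha
    obtain ⟨c, hc⟩ := Nat.exists_eq_add_of_le (hN2 t t')
    have h1 : hm 0 (H t' / H t) ^ n2 t t' * hm 0 ((U t')⁻¹ * U t) ∈ low (C t) ρ := by
      have h2 := (C t).mul_mem (hn2 t t') (hU t)
      have h4 : hm 0 (H t' / H t) ^ n2 t t' * hm (-(L : ℤ)) (U t')⁻¹ * hm L (U t) =
          hm 0 (H t' / H t) ^ n2 t t' * hm 0 ((U t')⁻¹ * U t) := by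
        rw [mul_assoc, hm_mul, neg_add_cancel]
      rw [h4] at h2
      rw [hm_pow, hm_mul] at h2 ⊢
      refine mem_low h2 ?_
      rw [mul_zero, zero_add]
      exact hρ0
    have h3 : hm 0 (H t' / H t) ^ (m * N2 + b) * hm 0 ((U t')⁻¹ * U t) ^ m =
        hm 0 (H t' / H t) ^ (m * c + b) *
          (hm 0 (H t' / H t) ^ n2 t t' * hm 0 ((U t')⁻¹ * U t)) ^ m := by
      rw [hc]; ring
    rw [h3]
    exact (low (C t) ρ).mul_mem ((low (C t) ρ).pow_mem (hzlow t t') _)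
      ((low (C t) ρ).pow_mem h1 _)
  have F3 : ∀ (t t' : T), ∀ f ∈ low (C t') ρ, ∃ n : ℕ,
      hm 0 (H t' / H t) ^ n * f ∈ low (C t) ρ := by
    intro t t'
    have h1 : low (C t') ρ ≤ loc (low (C t) ρ) (hm 0 (H t' / H t)) (hzlow t t') := by
      conv_lhs => unfold low
      rw [Algebra.adjoin_le_iff]
      rintro _ ⟨hf, e, a, he, rfl⟩
      obtain ⟨n, hn⟩ := h.gl t t' _ hf
      refine ⟨n, ?_⟩
      rw [hm_pow, hm_mul] at hn ⊢
      refine mem_low hn ?_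
      rw [mul_zero, zero_add]
      exact he
    exact fun f hf => h1 hf
  let H' : T' → K := fun p => H p.1 ^ N * hh p
  have hH'0 : ∀ p, H' p ≠ 0 := fun p => mul_ne_zero (pow_ne_zero _ (h.H0 _)) (hh0 p)
  let C' : T' → Subalgebra k (LP K) := fun p =>
    loc (low (C p.1) ρ) (hm (d p.1 p.2) (x p.1 p.2))
      (mem_low (hxm p) (by exact_mod_cast (hx p.1 p.2).2.1))
  -- the ratio of the markers
  have hratio : ∀ (p p' : T') (n : ℕ), hm (d p.1 p.2) (x p.1 p.2) ^ (n * q p) *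
      hm 0 (H' p' / H' p) ^ n = hm 0 (H p'.1 / H p.1) ^ (n * N) *
        hm 0 ((U p'.1)⁻¹ * U p.1) ^ n * hm (d p'.1 p'.2) (x p'.1 p'.2) ^ (n * q p') := by
    intro p p' n
    have h1 : hm (d p.1 p.2) (x p.1 p.2) ^ (q p) * hm 0 (H' p' / H' p) =
        hm 0 (H p'.1 / H p.1) ^ N * hm 0 ((U p'.1)⁻¹ * U p.1) *
          hm (d p'.1 p'.2) (x p'.1 p'.2) ^ (q p') := by
      rw [hxpow, hxpow, hm_pow, hm_mul, hm_mul, hm_mul]
      congr 1
      · ring
      · change x p.1 p.2 ^ q p * ((H p'.1 ^ N * ((U p'.1)⁻¹ * x p'.1 p'.2 ^ q p')) /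
          (H p.1 ^ N * ((U p.1)⁻¹ * x p.1 p.2 ^ q p))) = _
        have e1 := h.H0 p.1
        have e2 := hU0 p.1
        have e3 := hU0 p'.1
        have e4 := (hx p.1 p.2).2.2.1
        rw [div_pow]
        field_simp
    have h2 : hm (d p.1 p.2) (x p.1 p.2) ^ (n * q p) * hm 0 (H' p' / H' p) ^ n =
        (hm (d p.1 p.2) (x p.1 p.2) ^ (q p) * hm 0 (H' p' / H' p)) ^ n := by ring
    rw [h2, h1]
    ring
  have hlft : ∀ t, Algebra.FiniteType k (low (C t) ρ) := by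
    intro t
    rcases (hrρ t).eq_or_lt with heq | hlt
    · refine hlowft k K (C t) (h.ft t) (h.gr t) ρ (by omega) (u t) (hu0 t) ?_ ?_
      · rw [← heq]; exact hu t
      · rw [← heq]; exact hu' t
    · rw [low_eq_of_unit (h.gr t) (hr t) hlt (hu0 t) (hu t) (hu' t)]
      exact h.ft t
  have hlrg : ∀ t, IsRegularRing (low (C t) ρ) := by
    intro t
    rcases (hrρ t).eq_or_lt with heq | hlt
    · refine hlowreg k K (C t) (h.ft t) (h.rg t) (h.gr t) ρ (by omega) (u t) (hu0 t) ?_ ?_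
      · rw [← heq]; exact hu t
      · rw [← heq]; exact hu' t
    · rw [low_eq_of_unit (h.gr t) (hr t) hlt (hu0 t) (hu t) (hu' t)]
      exact h.rg t
  refine ⟨T', inferInstance, C', H', ?_,
    fun p => ⟨p.1, fun x hx => le_loc _ _ _ (mem_low hx hρ0)⟩⟩
  refine
    { H0 := hH'0
      HK := fun p => Kf.mul_mem (Kf.pow_mem (h.HK _) _) (h.inF _ _ _ (hhC p))
      ft := fun p => ft_loc (hlft p.1) _ (isUnit_hm (hx p.1 p.2).2.2.1)
      rg := fun p => regular_loc (hlrg p.1) _ (isUnit_hm (hx p.1 p.2).2.2.1)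
      gr := fun p => gr_loc (gr_low _ _) (hx p.1 p.2).2.2.1 _
      ss := fun p => le_loc _ _ _ (mem_low (h.ss p.1) (by linarith))
      un := ?_
      fr := fun p y hy => by
        obtain ⟨a, b, ha, hb, hb0, hab⟩ := h.fr p.1 y hy
        exact ⟨a, b, le_loc _ _ _ (mem_low ha hρ0), le_loc _ _ _ (mem_low hb hρ0), hb0, hab⟩
      inF := fun p e y hy => by
        obtain ⟨n, hn⟩ := hy
        have h1 := low_le _ _ hn
        rw [hm_pow, hm_mul] at h1
        exact mem_of_mul_mem' (pow_ne_zero n (hx p.1 p.2).2.2.1)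
          (Kf.pow_mem (h.inF _ _ _ (hxm p)) n) (h.inF _ _ _ h1)
      rt := ?_
      gl := ?_
      cv := ?_
      ve := fun hP p => by
        obtain ⟨s, hs, hs1⟩ := h.ve hP p.1
        exact ⟨s, hs, le_loc _ _ _ (mem_low hs1 hρ1)⟩
      mo := ?_ }
  · intro p
    refine ⟨d p.1 p.2, (hx p.1 p.2).1, by have := (hx p.1 p.2).2.1; omega, x p.1 p.2,
      (hx p.1 p.2).2.2.1, ?_, ?_⟩
    · exact le_loc _ _ _ (mem_low (hxm p) (by exact_mod_cast (hx p.1 p.2).2.1))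
    · refine inv_mem_loc _ _ _ _ ?_
      rw [hm_mul, add_neg_cancel, mul_inv_cancel₀ (hx p.1 p.2).2.2.1, hm_one]
  · intro p p'
    refine ⟨q p, ?_⟩
    have h1 := hratio p p' 1
    rw [one_mul, one_mul, pow_one, pow_one, one_mul] at h1
    rw [h1]
    have h2 : N2 + q p' * N1 ≤ N := by
      have := Nat.mul_le_mul_right N1 (hqL p')
      change N2 + q p' * N1 ≤ L * N1 + N2 + 1 + N3
      omega
    obtain ⟨c, hc⟩ := Nat.exists_eq_add_of_le h2
    have h3 : hm 0 (H p'.1 / H p.1) ^ N * hm 0 ((U p'.1)⁻¹ * U p.1) *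
          hm (d p'.1 p'.2) (x p'.1 p'.2) ^ (q p') =
        (hm 0 (H p'.1 / H p.1) ^ (N2 + c) * hm 0 ((U p'.1)⁻¹ * U p.1) ^ 1) *
          (hm 0 (H p'.1 / H p.1) ^ (q p' * N1) * hm (d p'.1 p'.2) (x p'.1 p'.2) ^ (q p')) := by
      rw [hc]; ring
    rw [h3]
    exact (low (C p.1) ρ).mul_mem (F2 p.1 p'.1 1 _ (by omega)) (F1 p.1 p' _ _ le_rfl)
  · intro p p' f hf
    obtain ⟨m, hm'⟩ := hf
    obtain ⟨n0, hn0⟩ := F3 p.1 p'.1 _ hm'
    let n := n0 + m
    refine ⟨n, n * q p, ?_⟩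
    have h1 : m ≤ n * q p' := by
      have := Nat.mul_le_mul_left n (hq1 p')
      have h2 : n = n0 + m := rfl
      omega
    obtain ⟨c, hc⟩ := Nat.exists_eq_add_of_le h1
    have h2 : n * N2 + c * N1 + n0 ≤ n * N := by
      have e1 : c ≤ n * L := by
        have := Nat.mul_le_mul_left n (hqL p')
        omega
      have e2 := Nat.mul_le_mul_right N1 e1
      have e3 : n * N = n * L * N1 + n * N2 + n + n * N3 := by
        change n * (L * N1 + N2 + 1 + N3) = _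
        ring
      have e4 : n = n0 + m := rfl
      rw [e3]
      omega
    obtain ⟨c', hc'⟩ := Nat.exists_eq_add_of_le h2
    have h3 : hm (d p.1 p.2) (x p.1 p.2) ^ (n * q p) * (hm 0 (H' p' / H' p) ^ n * f) =
        (hm 0 (H p'.1 / H p.1) ^ (n * N2 + c') * hm 0 ((U p'.1)⁻¹ * U p.1) ^ n) *
          ((hm 0 (H p'.1 / H p.1) ^ (c * N1) * hm (d p'.1 p'.2) (x p'.1 p'.2) ^ c) *
          (hm 0 (H p'.1 / H p.1) ^ n0 * (hm (d p'.1 p'.2) (x p'.1 p'.2) ^ m * f))) := by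
      rw [← mul_assoc, hratio, hc, hc']
      ring
    rw [h3]
    exact (low (C p.1) ρ).mul_mem (F2 p.1 p'.1 n _ (by omega))
      ((low (C p.1) ρ).mul_mem (F1 p.1 p' _ _ le_rfl) hn0)
  · intro V hV
    obtain ⟨t, ht⟩ := h.cv V hV
    have hJt := hJn t
    obtain ⟨j, hj⟩ := Finite.exists_max fun j : J t => V.valuation (x t j) ^ (q ⟨t, j⟩)
    refine ⟨⟨t, j⟩, ?_⟩
    rintro y ⟨n, hn⟩
    refine hval k K (C t) ρ (J t) (d t) (x t) (hx t) (hD t) V ht j ?_ y n hn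
    intro i
    have h1 := hj i
    have h2 : (V.valuation (x t i) ^ d t j) ^ L ≤ (V.valuation (x t j) ^ d t i) ^ L := by
      have h3 := pow_le_pow_left' h1 (d t i * d t j)
      have e1 := hq ⟨t, i⟩
      have e2 := hq ⟨t, j⟩
      change q ⟨t, i⟩ * d t i = L at e1
      change q ⟨t, j⟩ * d t j = L at e2
      rw [← pow_mul, ← pow_mul] at h3 ⊢
      have e3 : q ⟨t, i⟩ * (d t i * d t j) = d t j * L := by rw [← e1]; ring
      have e4 : q ⟨t, j⟩ * (d t i * d t j) = d t i * L := by rw [← e2]; ring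
      rwa [e3, e4] at h3
    exact le_of_pow_le_pow_left₀ hL0.ne' zero_le h2

  · intro hP
    obtain ⟨hn1, hn2, hn3⟩ := hmo hP
    have hN1' : 1 ≤ N := by
      change 1 ≤ L * N1 + N2 + 1 + N3
      omega
    have hN3' : N3 ≤ N - 1 := by
      change N3 ≤ L * N1 + N2 + 1 + N3 - 1
      omega
    refine ⟨n₀ * N, Nat.mul_pos hn1 hN1', fun p => ⟨hn3 p N (by omega), ?_, ?_⟩⟩
    · intro m hm'
      rw [pow_mul] at hm'
      obtain ⟨s1, hs1, h1⟩ := quot_mem (C p.1) (hn2 p.1).2.1 N m hm'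
      obtain ⟨s0, hs0, h0⟩ := h.ve hP p.1
      refine ⟨s0 ^ L * s1, mul_ne_zero (pow_ne_zero _ hs0) hs1, q p, ?_⟩
      have h2 := (C p.1).mul_mem h1 (hU p.1)
      rw [hm_mul, zero_add] at h2
      have h3 := down_mem hρ (h.ss p.1) h0 L h2
      rw [hxpow, hm_mul, add_zero]
      have e1 : x p.1 p.2 ^ q p * ((s0 ^ L * s1) • (m / H' p)) =
          s0 ^ L • (s1 • (m / H p.1 ^ N) * U p.1) := by
        change x p.1 p.2 ^ q p * ((s0 ^ L * s1) •
          (m / (H p.1 ^ N * ((U p.1)⁻¹ * x p.1 p.2 ^ q p)))) = _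
        have e2 := h.H0 p.1
        have e3 := hU0 p.1
        have e4 := (hx p.1 p.2).2.2.1
        rw [Algebra.smul_def, Algebra.smul_def, Algebra.smul_def, map_mul]
        field_simp
      rw [e1]
      exact h3
    · intro f hf
      obtain ⟨j, hj⟩ := hf
      have hg : hm 0 (f * hh p ^ j) ∈ C p.1 := by
        have h1 := low_le _ _ hj
        obtain ⟨c, hc⟩ := Nat.exists_eq_add_of_le (hq1 p)
        have h2 := (C p.1).mul_mem h1 (((C p.1).mul_mem
          ((C p.1).pow_mem (hxm p) (c * j)) ((C p.1).pow_mem (hU' p.1) j)))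
        have e1 : hm (d p.1 p.2) (x p.1 p.2) ^ j * hm 0 f *
            (hm (d p.1 p.2) (x p.1 p.2) ^ (c * j) * hm (-(L : ℤ)) (U p.1)⁻¹ ^ j) =
            hm 0 (f * hh p ^ j) := by
          have e2 : hm (d p.1 p.2) (x p.1 p.2) ^ j * hm 0 f *
            (hm (d p.1 p.2) (x p.1 p.2) ^ (c * j) * hm (-(L : ℤ)) (U p.1)⁻¹ ^ j) =
            hm 0 f * (hm (-(L : ℤ)) (U p.1)⁻¹ * hm (d p.1 p.2) (x p.1 p.2) ^ q p) ^ j := by
            rw [hc]; ring
          rw [e2, hxpow, hm_mul, neg_add_cancel, hm_pow, hm_mul, mul_zero, add_zero]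
        rw [e1] at h2
        exact h2
      obtain ⟨N0, hN0⟩ := (hn2 p.1).2.2 _ hg
      refine ⟨j + N0, fun N'' hN'' => ?_⟩
      obtain ⟨b, hb⟩ := Nat.exists_eq_add_of_le (show j ≤ N'' by omega)
      obtain ⟨N', hN'⟩ := Nat.exists_eq_add_of_le hN1'
      have h1 := sat_pow (hn3 p N' (by omega)) b
      have h2 := hN0 (b + N * j) (by
        have : b ≤ b + N * j := Nat.le_add_right _ _
        omega)
      have h3 := sat_mul h1 h2
      have e1 : (H p.1 ^ N' * hh p) ^ b * (H p.1 ^ (b + N * j) * (f * hh p ^ j)) =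
          H' p ^ N'' * f := by
        change _ = (H p.1 ^ N * hh p) ^ N'' * f
        rw [hb, hN']
        ring
      have e2 : n₀ * N' * b + n₀ * (b + N * j) = n₀ * N * N'' := by
        rw [hb, hN']
        ring
      rw [e1, e2] at h3
      exact h3


end astep

open Pool.Agent.Y349.G (pow_div_mem pow_le_subfield exp_up)

section model

variable {k K : Type} [CommRing k] [Field K] [Algebra k K]

variable {P : Prop} {M₀ : Submodule k K} {Kf : Subfield K}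

/-- The construction of a model from an atlas with stabilisers of order one. -/
theorem model_core_dom {T : Type} [Finite T] {C : T → Subalgebra k (LP K)} {H : T → K}
    (h : AtlasG P M₀ Kf 1 C H) (hreg : ∀ t, IsRegularRing (d0 (C t)))
    (G : T → Finset K) (hG : ∀ t, Algebra.adjoin k (G t : Set K) = d0 (C t)) (M : ℕ)
    (hM : ∀ (p : Σ t, {x // x ∈ G t}) (t : T), hm 0 ((H p.1 / H t) ^ M * p.2.1) ∈ C t)
    (L : Finset K) (hLK : ∀ l ∈ L, l ∈ Kf) (hL : ∀ l ∈ L, ∀ t, hm 0 (l / H t ^ M) ∈ C t)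
    (hmo : P → ∃ n : ℕ, 1 ≤ n ∧ (∀ t, H t ^ M ∈ sat (M₀ ^ n)) ∧
      (∀ p : (Σ t, {x // x ∈ G t}), H p.1 ^ M * p.2.1 ∈ sat (M₀ ^ n)) ∧
      (∀ l ∈ L, l ∈ sat (M₀ ^ n)) ∧
      ∀ m ∈ M₀ ^ n, ∃ s : k, s ≠ 0 ∧ s • m ∈ Submodule.span k (L : Set K)) :
    ∃ (I : Type) (_ : Finite I) (z : I → K) (J : Set I), ModelG P M₀ Kf z J ∧
      ∀ j ∈ J, ∃ t, ∀ x, hm 0 x ∈ C t → x ∈ Algebra.adjoin k (Set.range fun i => z i / z j) := by
  classical
  have : Fintype T := Fintype.ofFinite T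
  have hGm : ∀ t, ∀ x ∈ G t, hm 0 x ∈ C t := by
    intro t x hx
    have : x ∈ d0 (C t) := by rw [← hG t]; exact Algebra.subset_adjoin hx
    exact this
  let z : (T ⊕ (Σ t, {x // x ∈ G t})) ⊕ {l // l ∈ L} → K :=
    Sum.elim (Sum.elim (fun t => H t ^ M) (fun p => H p.1 ^ M * p.2.1)) (fun l => l.1)
  have hz : ∀ t i, hm 0 (z i / z (Sum.inl (Sum.inl t))) ∈ C t := by
    intro t i
    rcases i with (t' | p) | l
    · have e2 : hm 0 (H t' ^ M / H t ^ M) = hm 0 (H t' / H t) ^ M := by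
        rw [hm_pow, mul_zero, div_pow]
      change hm 0 (H t' ^ M / H t ^ M) ∈ C t
      rw [e2]
      exact (C t).pow_mem (h.rt t t') M
    · have e2 : hm 0 (H p.1 ^ M * p.2.1 / H t ^ M) = hm 0 ((H p.1 / H t) ^ M * p.2.1) := by
        congr 1
        rw [div_pow]
        ring
      change hm 0 (H p.1 ^ M * p.2.1 / H t ^ M) ∈ C t
      rw [e2]
      exact hM p t
    · exact hL l.1 l.2 t
  have hz0 : ∀ t, z (Sum.inl (Sum.inl t)) ≠ 0 := fun t => pow_ne_zero M (h.H0 t)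
  have hch : ∀ t, Algebra.adjoin k (Set.range fun i => z i / z (Sum.inl (Sum.inl t))) =
      d0 (C t) := by
    intro t
    apply le_antisymm
    · rw [Algebra.adjoin_le_iff]
      rintro _ ⟨i, rfl⟩
      exact hz t i
    · rw [← hG t, Algebra.adjoin_le_iff]
      intro x hx
      apply Algebra.subset_adjoin
      refine ⟨Sum.inl (Sum.inr ⟨t, x, hx⟩), ?_⟩
      change H t ^ M * x / H t ^ M = x
      have := pow_ne_zero M (h.H0 t)
      field_simp
  refine ⟨(T ⊕ (Σ t, {x // x ∈ G t})) ⊕ {l // l ∈ L}, inferInstance, z,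
    Set.range fun t => Sum.inl (Sum.inl t), ?_, ?_⟩
  rotate_left
  · rintro _ ⟨t, rfl⟩
    refine ⟨t, fun x hx => ?_⟩
    rw [hch t]
    exact hx
  refine
    { zK := ?_
      z0 := ?_
      cv := ?_
      rg := ?_
      fr := ?_
      mo := ?_ }
  · rintro ((t | ⟨t, x, hx⟩) | l)
    · exact Kf.pow_mem (h.HK t) _
    · exact Kf.mul_mem (Kf.pow_mem (h.HK t) _) (h.inF _ _ _ (hGm t x hx))
    · exact hLK l.1 l.2
  · rintro _ ⟨t, rfl⟩
    exact hz0 t
  · intro V hV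
    obtain ⟨t, ht⟩ := h.cv V hV
    exact ⟨Sum.inl (Sum.inl t), ⟨t, rfl⟩, fun i => ht _ (hz t i)⟩
  · rintro _ ⟨t, rfl⟩
    rw [hch t]
    exact hreg t
  · rintro _ ⟨t, rfl⟩ x hx
    rw [hch t]
    obtain ⟨y, y', hy, hy', h0, hxy⟩ := h.fr t x hx
    exact ⟨y, hy, y', hy', h0, hxy⟩
  · intro hP
    obtain ⟨n, hn, h1, h2, h3, h4⟩ := hmo hP
    refine ⟨n, hn, ?_, ?_⟩
    · rintro ((t | p) | l)
      · exact h1 t
      · exact h2 p
      · exact h3 l.1 l.2
    · intro m hm'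
      obtain ⟨s, hs, hs'⟩ := h4 m hm'
      refine ⟨s, hs, Submodule.span_mono ?_ hs'⟩
      intro l hl
      exact ⟨Sum.inr ⟨l, hl⟩, rfl⟩


theorem model_one_dom [IsDomain k] [IsNoetherianRing k] (D0 : S_D0) (hFG : M₀.FG) (hP : P → ∀ m ∈ M₀, m ∈ Kf)
    {T : Type} [Finite T] {C : T → Subalgebra k (LP K)} {H : T → K}
    (h : AtlasG P M₀ Kf 1 C H) :
    ∃ (I : Type) (_ : Finite I) (z : I → K) (J : Set I), ModelG P M₀ Kf z J ∧
      ∀ j ∈ J, ∃ t, ∀ x, hm 0 x ∈ C t → x ∈ Algebra.adjoin k (Set.range fun i => z i / z j) := by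
  classical
  have : Fintype T := Fintype.ofFinite T
  have hd : ∀ t, Algebra.FiniteType k (d0 (C t)) ∧ IsRegularRing (d0 (C t)) := by
    intro t
    obtain ⟨r, hr, hr1, u, hu0, hu, hu'⟩ := h.un t
    have hr' : r = 1 := by omega
    subst hr'
    exact D0 k K (C t) (h.ft t) (h.rg t) (h.gr t) u hu0 (by exact_mod_cast hu)
      (by exact_mod_cast hu')
  have hfg : ∀ t, ∃ G : Finset K, Algebra.adjoin k (G : Set K) = d0 (C t) := by
    intro t
    obtain ⟨G, hG⟩ := (Subalgebra.fg_iff_finiteType _).2 (hd t).1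
    exact ⟨G, hG⟩
  choose G hG using hfg
  have hGm : ∀ t, ∀ x ∈ G t, hm 0 x ∈ C t := by
    intro t x hx
    have : x ∈ d0 (C t) := by rw [← hG t]; exact Algebra.subset_adjoin hx
    exact this
  have h1 : ∀ p : (Σ t, {x // x ∈ G t}), ∃ n : ℕ,
      ∀ t, hm 0 ((H p.1 / H t) ^ n * p.2.1) ∈ C t := by
    rintro ⟨t, x, hx⟩
    choose m hm' using fun t' => h.gl t' t _ (hGm t x hx)
    refine ⟨Finset.univ.sup m, ?_⟩
    intro t'
    have h2 : m t' ≤ Finset.univ.sup m := Finset.le_sup (Finset.mem_univ t')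
    apply exp_up h h2
    have h3 := hm' t'
    rw [hm_pow, hm_mul, mul_zero, zero_add] at h3
    exact h3
  choose N hN using h1
  by_cases hPP : P
  · -- the additional coordinates
    obtain ⟨n, hn, hmo⟩ := h.mo hPP
    choose N0 hN0 using fun (p : Σ t, {x // x ∈ G t}) => (hmo p.1).2.2 p.2.1 (hGm p.1 p.2.1 p.2.2)
    choose N1 hN1 using fun t => (hmo t).2.2 1 (by rw [hm_one]; exact (C t).one_mem)
    let M : ℕ := Finset.univ.sup N + Finset.univ.sup N0 + Finset.univ.sup N1 + 1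
    have hNM : ∀ p, N p ≤ M := fun p =>
      (Finset.le_sup (f := N) (Finset.mem_univ p)).trans (by omega)
    have hN0M : ∀ p, N0 p ≤ M := fun p =>
      (Finset.le_sup (f := N0) (Finset.mem_univ p)).trans (by omega)
    have hN1M : ∀ t, N1 t ≤ M := fun t =>
      (Finset.le_sup (f := N1) (Finset.mem_univ t)).trans (by omega)
    have hnM : 1 ≤ n * M := Nat.mul_pos hn (by omega)
    obtain ⟨L, hL⟩ := hFG.pow (n * M)
    have hLm : ∀ l ∈ L, l ∈ M₀ ^ (n * M) := fun l hl => by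
      rw [← hL]; exact Submodule.subset_span hl
    have h5 : ∀ l : {l // l ∈ L}, ∀ t, ∃ s : k, s ≠ 0 ∧ hm 0 (s • (l.1 / H t ^ M)) ∈ C t := by
      intro l t
      apply pow_div_mem (hmo t).2.1 M l.1
      rw [← pow_mul]
      exact hLm l.1 l.2
    choose s hs0 hs using h5
    let S : k := ∏ l : {l // l ∈ L}, ∏ t, s l t
    have hS0 : S ≠ 0 := Finset.prod_ne_zero_iff.mpr fun l _ =>
      Finset.prod_ne_zero_iff.mpr fun t _ => hs0 l t
    have hSd : ∀ l t, s l t ∣ S := fun l t =>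
      (Finset.dvd_prod_of_mem (fun t => s l t) (Finset.mem_univ t)).trans
        (Finset.dvd_prod_of_mem (fun l => ∏ t, s l t) (Finset.mem_univ l))
    refine model_core_dom h (fun t => (hd t).2) G hG M (fun p t => exp_up h (hNM p) (hN p t))
      (L.image fun l => S • l) ?_ ?_ ?_
    · intro l' hl'
      obtain ⟨l, hl, rfl⟩ := Finset.mem_image.mp hl'
      exact pow_le_subfield (hP hPP) (n * M) hnM _ (Submodule.smul_mem _ _ (hLm l hl))
    · intro l' hl' t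
      obtain ⟨l, hl, rfl⟩ := Finset.mem_image.mp hl'
      obtain ⟨c, hc⟩ := hSd ⟨l, hl⟩ t
      have e : hm 0 (S • l / H t ^ M) = c • hm 0 (s ⟨l, hl⟩ t • (l / H t ^ M)) := by
        rw [smul_hm, smul_smul, mul_comm c, ← hc, smul_div_assoc]
      rw [e]
      exact (C t).smul_mem (hs ⟨l, hl⟩ t) c
    · intro _
      refine ⟨n * M, hnM, ?_, ?_, ?_, ?_⟩
      · intro t
        have := hN1 t M (hN1M t)
        rwa [mul_one] at this
      · intro p
        exact hN0 p M (hN0M p)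
      · intro l' hl'
        obtain ⟨l, hl, rfl⟩ := Finset.mem_image.mp hl'
        exact ⟨1, one_ne_zero, by
          rw [one_smul]; exact Submodule.smul_mem _ _ (hLm l hl)⟩
      · intro m hm'
        refine ⟨S, hS0, ?_⟩
        rw [← hL] at hm'
        induction hm' using Submodule.span_induction with
        | mem x hx =>
          apply Submodule.subset_span
          rw [Finset.coe_image]
          exact ⟨x, hx, rfl⟩
        | zero => rw [smul_zero]; exact Submodule.zero_mem _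
        | add x y _ _ hx hy => rw [smul_add]; exact Submodule.add_mem _ hx hy
        | smul c x _ hx => rw [smul_comm]; exact Submodule.smul_mem _ _ hx
  · let M : ℕ := Finset.univ.sup N
    have hNM : ∀ p, N p ≤ M := fun p => Finset.le_sup (f := N) (Finset.mem_univ p)
    exact model_core_dom h (fun t => (hd t).2) G hG M (fun p t => exp_up h (hNM p) (hN p t)) ∅
      (by simp) (by simp) (fun h' => absurd h' hPP)


end model

/-- An atlas gives a model, whose charts dominate the charts of the atlas. -/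
theorem model_dom (k K : Type) [CommRing k] [IsDomain k] [IsNoetherianRing k] [Field K]
    [Algebra k K] (hinj : Function.Injective (algebraMap k K)) (P : Prop) (M₀ : Submodule k K)
    (hFG : M₀.FG) (Kf : Subfield K) (hP : P → ∀ m ∈ M₀, m ∈ Kf) (ρ : ℕ) :
    ∀ (T : Type) [Finite T] (C : T → Subalgebra k (LP K)) (H : T → K), AtlasG P M₀ Kf ρ C H →
    ∃ (I : Type) (_ : Finite I) (z : I → K) (J : Set I), ModelG P M₀ Kf z J ∧
      ∀ j ∈ J, ∃ t, ∀ x, hm 0 x ∈ C t → x ∈ Algebra.adjoin k (Set.range fun i => z i / z j) := by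
  have hLOCJ : S_LOCJ := Pool.Agent.Y878.G.t_LOCJ
  have hI0 : S_I0REG := Pool.Agent.Y642.G.t_I0REG hLOCJ
  have hWQR : S_WQR := Pool.Agent.Y484.G.t_WQR
  have hLRA : S_LRA := Pool.Agent.Y737.G.t_LRA hLOCJ hWQR
  have hLOWFT : S_LOWFT := Pool.Agent.Y86.G.t_LOWFT
  have hLOWREG : S_LOWREG := Pool.Agent.Y44.G.t_LOWREG hI0 hLRA hLOWFT
  have hD0 : S_D0 := Pool.Agent.Y705.G.t_D0 hI0
  induction ρ with
  | zero =>
    intro T _ C H h
    exact (Pool.Agent.Y349.G.not_atlas_zero h).elim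
  | succ ρ ih =>
    intro T _ C H h
    rcases Nat.eq_zero_or_pos ρ with rfl | hρ
    · exact model_one_dom hD0 hFG hP h
    · obtain ⟨T', hT', C', H', h', hd⟩ := astep_dom Pool.Agent.Y232.G.t_GENS
        Pool.Agent.Y232.G.t_VAL hLOWFT hLOWREG k K hinj P M₀ Kf (ρ + 1) (by omega) T C H h
      obtain ⟨I, hI, z, J, hM, hd'⟩ := ih T' C' H' h'
      refine ⟨I, hI, z, J, hM, fun j hj => ?_⟩
      obtain ⟨t', ht'⟩ := hd' j hj
      obtain ⟨t, ht⟩ := hd t'
      exact ⟨t, fun x hx => ht' x (ht x hx)⟩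

end Pool.Agent.N864.GT
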