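import Pool.Agent.N864.GT.Pt5
import Pool.Agent.N864.GS.Pts4

/-!
# The conditions at the points, and the resolution of the quotient
-/

set_option autoImplicit false
set_option linter.unusedSectionVars false
set_option linter.unusedVariables false

namespace Pool.Agent.N864.GT

open IsLocalRing Pool.Agent.TH188.QS Pool.Agent.TH188.ARC Pool.Agent.W418.LU2
  Pool.Agent.Y223.G Pool.Agent.Y223.INV Pool.Agent.N864.GQ Pool.Agent.N864.GR
  AlgebraicGeometry CategoryTheory
open Pool.Agent.Y232.G6 (Ph Ph_hm mem_res)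

section

variable {O K G : Type} [CommRing O] [Field K] [Algebra O K] [Group G]

/-- The charts of the blowing up of the ideal of the fixed points. -/
def chart (σ : K ≃ₐ[O] K) (R : Subring K) (y : R) : Subring K :=
  Subring.closure ((R : Set K) ∪ {x | ∃ b ∈ fixedIdeal σ R, x = (b : K) / y})

/-- The conditions at the points with wild inertia. -/
def Wild5 (p : ℕ) (σ : K ≃ₐ[O] K) (R : Subring K) : Prop :=
  ((∀ y ∈ fixedIdeal σ R, y ≠ 0 → IsRegularRing (chart σ R y)) ∧ (p = 2 ∨ ActsByScalar σ R)) ∨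
    (IsRegularLocalRing R ∧ ∃ (t : R) (δ : R → R), t ≠ 0 ∧ (∀ x : R, σ x = x + t * δ x) ∧
      (Ideal.span (Set.range δ) = ⊤ ∨
        (IsRegularLocalRing (R ⧸ Ideal.span (Set.range δ)) ∧ (p = 2 ∨ ActsByScalar σ R))))

/-- The conditions on the inertia group. -/
def InertiaCondition5 (p : ℕ) (ρ : G →* (K ≃ₐ[O] K)) (R : Subring K) : Prop :=
  ∃ τ : G, (∀ g, IsFixed (ρ g) R ↔ g ∈ Subgroup.zpowers τ) ∧
    ((¬ p ∣ orderOf τ ∧ IsRegularLocalRing R) ∨ (orderOf τ = p ∧ Wild5 p (ρ τ) R))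

variable {ρ : G →* (K ≃ₐ[O] K)} {A : Subalgebra O K} {W : ValuationSubring K} {Q : Subring K}

lemma fx_iff' (hQW : Q ≤ W.toSubring) (hIC : IC W.toSubring Q) (hloc : IsLocalRing Q)
    (σ : K ≃ₐ[O] K) : Fx σ W Q ↔ IsFixed σ Q := by
  have hmax : ∀ y : Q, y ∈ maximalIdeal Q ↔ NU W.toSubring (y : K) := mem_max_iff hQW hIC
  constructor
  · intro h x
    refine ⟨⟨σ x, (h x x.2).1⟩, rfl, ?_⟩
    have h1 := (hmax (⟨σ x, (h x x.2).1⟩ - x)).2 (h x x.2).2
    exact (mem_maximalIdeal _).1 h1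
  · intro h x hx
    obtain ⟨y, hy, hnu⟩ := h ⟨x, hx⟩
    refine ⟨hy ▸ y.2, ?_⟩
    have h1 := (hmax (y - ⟨x, hx⟩)).1 ((mem_maximalIdeal _).2 hnu)
    change NU W.toSubring ((y : K) - x) at h1
    rwa [hy] at h1

/-- The centre of a valuation. -/
lemma exists_centre {S : Subring K} (hSW : S ≤ W.toSubring) :
    ∃ (P : Ideal S) (_ : P.IsPrime), (LocalSubring.ofPrime S P).toSubring =
      lo W.toSubring S := by
  classical
  let φ : S →+* W := S.subtype.codRestrict W fun x => hSW x.2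
  let P : Ideal S := (maximalIdeal W).comap φ
  have hP : P.IsPrime := Ideal.comap_isPrime _ _
  have hPN : ∀ a : S, a ∈ P ↔ NU W.toSubring (a : K) := by
    intro a
    have h1 : a ∈ P ↔ φ a ∈ maximalIdeal W := Iff.rfl
    rw [h1, mem_maximalIdeal, mem_nonunits_iff, NU, not_iff_not]
    constructor
    · intro h
      obtain ⟨y, hy⟩ := isUnit_iff_exists_inv.1 h
      have h2 : (a : K) * y = 1 := congrArg Subtype.val hy
      refine ⟨left_ne_zero_of_mul_eq_one h2, ?_⟩
      rw [← eq_inv_of_mul_eq_one_right h2]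
      exact y.2
    · rintro ⟨h2, h3⟩
      exact isUnit_iff_exists_inv.2 ⟨⟨_, h3⟩, Subtype.ext (mul_inv_cancel₀ h2)⟩
  exact ⟨P, hP, ofPrime_eq_lo hSW P hPN⟩

lemma regular_lo {S : Subring K} (hSW : S ≤ W.toSubring) (hreg : IsRegularRing S) :
    IsRegularLocalRing (lo W.toSubring S) := by
  obtain ⟨P, hP, hR⟩ := exists_centre hSW
  have hregR : IsRegularLocalRing (LocalSubring.ofPrime S P).toSubring :=
    IsRegularLocalRing.of_ringEquiv (LocalSubring.ofPrimeEquiv S P).toRingEquiv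
  rwa [hR] at hregR

lemma fixedIdeal_eq {σ : K ≃ₐ[O] K} (hF : Fx σ W Q) : fixedIdeal σ Q = fixR (qact hF) := by
  unfold fixedIdeal fixR
  congr 1
  ext y
  constructor
  · rintro ⟨x, hx⟩
    exact ⟨x, Subtype.ext hx⟩
  · rintro ⟨x, hx⟩
    exact ⟨x, congrArg Subtype.val hx⟩

variable (hst : ∀ g, ∀ a ∈ A, ρ g a ∈ A)

/-- The charts of the blowing up of the local ring. -/
lemma chart_local (hAW : A.toSubring ≤ W.toSubring) {τ : G}
    (hF : Fx (ρ τ) W (lo W.toSubring A.toSubring)) {y : A} (hy : y ∈ fixI hst τ)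
    (hy0 : (y : K) ≠ 0) (hBW : (BW (fixI hst τ) y).toSubring ≤ W.toSubring) :
    chart (ρ τ) (lo W.toSubring A.toSubring) ⟨y, le_lo _ _ y.2⟩ ≤ W.toSubring ∧
      lo W.toSubring (chart (ρ τ) (lo W.toSubring A.toSubring) ⟨y, le_lo _ _ y.2⟩) =
        lo W.toSubring (BW (fixI hst τ) y).toSubring := by
  have h1 : chart (ρ τ) (lo W.toSubring A.toSubring) ⟨y, le_lo _ _ y.2⟩ ≤
      lo W.toSubring (BW (fixI hst τ) y).toSubring := by
    unfold chart
    rw [Subring.closure_le]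
    rintro x (hx | ⟨b, hb, rfl⟩)
    · exact lo_mono (fun a ha => BW_A y ha) hx
    · rw [fixedIdeal_eq hF] at hb
      obtain ⟨s, hs0, hsW, a, ha, hsa⟩ := clear_den hst hAW hF 1 b (by rwa [pow_one])
      rw [pow_one] at ha
      have h2 : (s : K)⁻¹ ∈ lo W.toSubring (BW (fixI hst τ) y).toSubring :=
        inv_mem_lo hBW (le_lo _ _ (BW_A y s.2)) hs0 hsW
      have e : (b : K) / y = (a : K) / y * (s : K)⁻¹ := by
        rw [← hsa]
        field_simp
      change (b : K) / (y : K) ∈ lo W.toSubring (BW (fixI hst τ) y).toSubring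
      rw [e]
      exact Subring.mul_mem _ (le_lo _ _ (BW_div y ha)) h2
  have h2 : (BW (fixI hst τ) y).toSubring ≤
      chart (ρ τ) (lo W.toSubring A.toSubring) ⟨y, le_lo _ _ y.2⟩ := by
    refine BW_le (fun a ha => Subring.subset_closure (Or.inl (le_lo _ _ ha))) fun a ha => ?_
    refine Subring.subset_closure (Or.inr ⟨⟨a, le_lo _ _ a.2⟩, ?_, rfl⟩)
    rw [fixedIdeal_eq hF]
    have h3 := fixI_pow_mem hst hF 1 a (by rwa [pow_one])
    rwa [pow_one] at h3
  exact ⟨h1.trans (lo_le hBW), le_antisymm (lo_le_lo hBW h1) (lo_mono h2)⟩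

/-- The conditions at the points. -/
theorem pt_of5 [Fintype G] {p : ℕ} (hp : p.Prime) (hpO : ∀ n : ℕ, ¬ p ∣ n → IsUnit (n : O))
    (hAW : A.toSubring ≤ W.toSubring)
    (h : InertiaCondition5 p ρ (lo W.toSubring A.toSubring)) : PT5 hst (fun l => l ≠ p) W := by
  classical
  have hQW : lo W.toSubring A.toSubring ≤ W.toSubring := lo_le hAW
  have hIC : IC W.toSubring (lo W.toSubring A.toSubring) := ic_lo hAW
  have hloc : IsLocalRing (lo W.toSubring A.toSubring) := isLocalRing_lo (loc_V W) hAW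
  have hfx : ∀ g, Fx (ρ g) W (lo W.toSubring A.toSubring) ↔
      IsFixed (ρ g) (lo W.toSubring A.toSubring) := fun g => fx_iff' hQW hIC hloc (ρ g)
  obtain ⟨τ, hI, ⟨hpτ, hreg⟩ | ⟨hτ, hG⟩⟩ := h
  · refine Or.inr (Or.inr ⟨hreg, τ, fun g => (hfx g).trans (hI g), ?_, ?_⟩)
    · obtain ⟨v, hv⟩ := isUnit_iff_exists_inv.1 (hpO _ hpτ)
      have hvA : algebraMap O K v ∈ lo W.toSubring A.toSubring :=
        le_lo _ _ (A.algebraMap_mem v)
      refine isUnit_iff_exists_inv.2 ⟨⟨_, hvA⟩, Subtype.ext ?_⟩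
      have h1 := congrArg (algebraMap O K) hv
      rw [map_mul, map_natCast, map_one] at h1
      push_cast
      exact h1
    · rintro l - hl rfl
      exact hpτ hl
  · have hτp : τ ^ p = 1 := by rw [← hτ, pow_orderOf_eq_one]
    have hF : Fx (ρ τ) W (lo W.toSubring A.toSubring) :=
      (hfx τ).2 ((hI τ).2 (Subgroup.mem_zpowers τ))
    have h22 : p = 2 → ∀ x, ρ τ (ρ τ x) = x := by
      intro h2 x
      rw [h2] at hτp
      rw [← AlgEquiv.mul_apply, ← map_mul, ← pow_two, hτp, map_one]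
      rfl
    have hsc2 : p = 2 → ∃ u, ∀ x ∈ fixR (qact hF), qact hF x - u * x ∈ fixR (qact hF) ^ 2 :=
      fun h2 => ⟨-1, sc_two fun x => Subtype.ext (h22 h2 x)⟩
    have hsc : ActsByScalar (ρ τ) (lo W.toSubring A.toSubring) →
        ∃ u, ∀ x ∈ fixR (qact hF), qact hF x - u * x ∈ fixR (qact hF) ^ 2 := by
      rintro ⟨u, hu⟩
      rw [fixedIdeal_eq hF] at hu
      exact ⟨u, fun x hx => hu x hx _ rfl⟩
    refine Or.inr (Or.inl ⟨p, τ, hp, fun h => h rfl, hτ,
      fun g hg => (hI g).1 ((hfx g).1 hg), ?_, hF, ?_⟩)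
    · intro y hy hy0 hBW
      rcases hG with ⟨hreg, -⟩ | ⟨hreg, t, δ, ht0, hδ, hJ⟩
      · obtain ⟨h1, h2⟩ := chart_local hst hAW hF hy hy0 hBW
        rw [← h2]
        refine regular_lo h1 (hreg _ ?_ fun h => hy0 (congrArg Subtype.val h))
        rw [fixedIdeal_eq hF]
        have h3 := fixI_pow_mem hst hF 1 y (by rwa [pow_one])
        rwa [pow_one] at h3
      · obtain ⟨t', c, z, hGd⟩ := gd_of_regular hQW hIC hreg
          ⟨t, δ, ht0, hδ, hJ.imp id And.left⟩
        have e : fixI hst τ = fixI hst τ ^ 1 * ⊤ := by rw [pow_one, Ideal.mul_top]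
        have h1 : (1 : A) ∈ (⊤ : Ideal A) := trivial
        rw [e] at hy hBW ⊢
        refine blow_centre hst hAW hF hGd le_rfl h1 one_ne_zero ?_ hy hy0 hBW
        rw [OneMemClass.coe_one, inv_one]
        exact W.one_mem
    · rcases hG with ⟨-, h2⟩ | ⟨hreg, t, δ, ht0, hδ, hJ | ⟨hJ, h2⟩⟩
      · exact h2.elim hsc2 hsc
      · exact sc_top (t := t) (δ := δ) (fun x => Subtype.ext (hδ x)) hJ
      · exact h2.elim hsc2 hsc

end

section final

variable {k K : Type} [Field k] [Field K] [Algebra k K]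

/-- The invariants of the group. -/
def inv (A : Subalgebra k K) (G : Subgroup (K ≃ₐ[k] K)) : Subalgebra k K where
  carrier := {a | a ∈ A ∧ ∀ σ ∈ G, σ a = a}
  mul_mem' := fun ha hb => ⟨A.mul_mem ha.1 hb.1, fun σ hσ => by
    rw [map_mul, ha.2 σ hσ, hb.2 σ hσ]⟩
  add_mem' := fun ha hb => ⟨A.add_mem ha.1 hb.1, fun σ hσ => by
    rw [map_add, ha.2 σ hσ, hb.2 σ hσ]⟩
  algebraMap_mem' := fun c => ⟨A.algebraMap_mem c, fun σ _ => σ.commutes c⟩

/-- The invariants are finitely generated. -/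
theorem ft_inv (A : Subalgebra k K) [hft : Algebra.FiniteType k A] (G : Subgroup (K ≃ₐ[k] K))
    [Finite G] (hst : ∀ σ ∈ G, ∀ a ∈ A, σ a ∈ A) : Algebra.FiniteType k (inv A G) := by
  have hst' : ∀ g : G, ∀ a ∈ A, G.subtype g a ∈ A := fun g => hst g g.2
  let i1 : MulSemiringAction G A :=
    { smul := fun g a => act hst' g a
      one_smul := fun a => act_one hst' a
      mul_smul := fun g h a => act_mul hst' g h a
      smul_zero := fun g => map_zero (act hst' g)
      smul_add := fun g a b => map_add (act hst' g) a b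
      smul_one := fun g => map_one (act hst' g)
      smul_mul := fun g a b => map_mul (act hst' g) a b }
  have hle : inv A G ≤ A := fun a ha => ha.1
  let i2 : Algebra (inv A G) A := (Subalgebra.inclusion hle).toRingHom.toAlgebra
  have i3 : IsScalarTower k (inv A G) A := IsScalarTower.of_algebraMap_eq fun c => rfl
  have i4 : Algebra.IsInvariant (inv A G) A G := by
    refine ⟨fun b hb => ⟨⟨b, b.2, fun σ hσ => ?_⟩, rfl⟩⟩
    exact congrArg Subtype.val (hb ⟨σ, hσ⟩)
  have h1 : Algebra.IsIntegral (inv A G) A := Algebra.IsInvariant.isIntegral (inv A G) A G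
  have h2 : Algebra.FiniteType (inv A G) A :=
    Algebra.FiniteType.of_restrictScalars_finiteType k (inv A G) A
  have h3 : Module.Finite (inv A G) A := Algebra.IsIntegral.finite
  refine ⟨fg_of_fg_of_fg k (inv A G) A hft.1 h3.1 ?_⟩
  intro a b hab
  exact Subtype.ext (congrArg (fun x : A => (x : K)) hab)

/-- The resolution of the quotient. -/
theorem grp_resolution [PerfectField k] {p : ℕ} (hp : p.Prime)
    (hpk : ∀ n : ℕ, ¬ p ∣ n → IsUnit (n : k)) (A : Subalgebra k K)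
    [hft : Algebra.FiniteType k A] (hK : ∀ x : K, ∃ a ∈ A, ∃ b ∈ A, x = a / b)
    (G : Subgroup (K ≃ₐ[k] K)) [Finite G] (hst : ∀ σ ∈ G, ∀ a ∈ A, σ a ∈ A)
    (hpt : ∀ (𝔮 : Ideal A.toSubring) [𝔮.IsPrime],
      InertiaCondition5 p G.subtype (LocalSubring.ofPrime A.toSubring 𝔮).toSubring) :
    Pool.Agent.H920R2.HasResolution (X := Spec (CommRingCat.of (inv A G)))
      (Spec.map (CommRingCat.ofHom (algebraMap k (inv A G)))) := by
  classical
  let _ : Fintype G := Fintype.ofFinite G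
  have hst' : ∀ g : G, ∀ a ∈ A, G.subtype g a ∈ A := fun g => hst g g.2
  let F : IntermediateField k K := IntermediateField.fixedField G
  let ι : F →ₐ[k] K := F.val
  have hF : ∀ x : K, x ∈ F ↔ ∀ σ ∈ G, σ x = x := IntermediateField.mem_fixedField_iff G
  have hfix : ∀ x : K, (∀ g : G, G.subtype g x = x) ↔ ∃ y : F, ι y = x := by
    intro x
    constructor
    · intro h
      exact ⟨⟨x, (hF x).2 fun σ hσ => h ⟨σ, hσ⟩⟩, rfl⟩
    · rintro ⟨y, rfl⟩ g
      exact (hF _).1 y.2 g g.2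
  have hfaith : ∀ g : G, (∀ a ∈ A, G.subtype g a = a) → g = 1 := by
    intro g hg
    apply Subtype.ext
    apply AlgEquiv.ext
    intro x
    obtain ⟨a, ha, b, hb, rfl⟩ := hK x
    have h1 : (g : K ≃ₐ[k] K) a = a := hg a ha
    have h2 : (g : K ≃ₐ[k] K) b = b := hg b hb
    rw [map_div₀, h1, h2]
    rfl
  obtain ⟨T, hT⟩ : ∃ T : ℕ → Prop, T = fun l => l ≠ p := ⟨_, rfl⟩
  have hCh : Ch (res ι (RI (AJ hst' (ex T)))) := by
    refine ch_res5 hst' ι hfix hfaith (Pool.Agent.N864.GS.AJ_ne hst' hfaith _)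
      (fun x hx g => AJ_act hst' (ex T) (fun g h => ex_conj T g h) hx g) ?_
    intro W hAW
    refine ⟨T, Pool.Agent.N864.GS.Lq_refl W _, ?_⟩
    rw [hT]
    refine pt_of5 hst' hp hpk hAW ?_
    obtain ⟨P, hP, hR⟩ := exists_centre hAW
    rw [← hR]
    exact hpt P
  let g : inv A G →ₐ[k] F :=
    (Subalgebra.inclusion (S := inv A G) (T := F.toSubalgebra) fun x hx => (hF x).2 hx.2)
  have hg : ∀ a, ι (g a) = (a : K) := fun a => rfl
  have hginj : Function.Injective g := by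
    intro a b hab
    apply Subtype.ext
    rw [← hg a, ← hg b, hab]
  refine resolution_of_ch g hginj _ hCh ?_ ?_
  · intro a
    rw [mem_res, Ph_hm, hg]
    exact b_RI (𝔞 := AJ hst' (ex T)) ⟨a, a.2.1⟩
  · intro f hf d
    have h1 := hCh.cf d _ (hCh.gr f hf d)
    rw [mem_res, Ph_hm] at h1
    obtain ⟨b, -, hb⟩ := of_hm_RI h1
    refine ⟨⟨b, b.2, fun σ hσ => ?_⟩, ?_⟩
    · rw [hb]
      exact (hF _).1 (f.coeff d).2 σ hσ
    · apply ι.toRingHom.injective
      change ι _ = ι _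
      rw [hg]
      exact hb.symm

end final

end Pool.Agent.N864.GT
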