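import Pool.Agent.Y223.INV.IndI
import Mathlib

/-!
# Regular algebras over perfect fields are smooth
-/

set_option autoImplicit false
set_option linter.unusedSectionVars false
set_option linter.unusedVariables false

namespace Pool.Agent.N864.GT

open IsLocalRing TensorProduct KaehlerDifferential Algebra Pool.Agent.W418.LU2 Pool.Agent.Y223.INV

/-- A regular local ring, which is a quotient of a regular local ring which is formally smooth over
a perfect field, is formally smooth. -/
theorem fsm_aux {k P S : Type} [Field k] [PerfectField k] [CommRing P] [CommRing S] [Algebra k P]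
    [Algebra k S] [Algebra P S] [IsScalarTower k P S] [IsRegularLocalRing P]
    [IsRegularLocalRing S] [FormallySmooth k P] [Module.Free P Ω[P⁄k]] [Module.Finite P Ω[P⁄k]]
    (hs : Function.Surjective (algebraMap P S)) [EssFiniteType k (ResidueField S)] :
    FormallySmooth k S := by
  classical
  let κ := ResidueField S
  have hloc : IsLocalHom (algebraMap P S) := hs.isLocalHom _
  have hκs : Function.Surjective (algebraMap P κ) := by
    rw [IsScalarTower.algebraMap_eq P S κ]
    exact residue_surjective.comp hs
  have hκ : FormallySmooth k κ := inferInstance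
  have hfg1 : (RingHom.ker (algebraMap P κ)).FG := IsNoetherian.noetherian _
  have hfg2 : (RingHom.ker (algebraMap P S)).FG := IsNoetherian.noetherian _
  have h1 : Function.Injective (cotangentComplexBaseChange k κ P κ) := by
    refine (FormallySmooth.iff_injective_cotangentComplexBaseChange (R := k) (S := κ) P κ hκs hfg1
      ?_).1 hκ
    intro x hx
    have : x = 0 := by
      by_contra h
      exact hx (isUnit_iff_ne_zero.2 h)
    rw [this]
    exact Ideal.zero_mem _
  refine (FormallySmooth.iff_injective_cotangentComplexBaseChange (R := k) (S := S) P κ hs hfg2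
      ?_).2 ?_
  · intro x hx
    exact (residue_eq_zero_iff x).2 hx
  -- the generators of the kernel
  have hregq : IsRegularLocalRing (P ⧸ RingHom.ker (algebraMap P S)) :=
    IsRegularLocalRing.of_ringEquiv (RingHom.quotientKerEquivOfSurjective hs).symm
  obtain ⟨c, y, hy, hyI⟩ := ideal_ind (RingHom.ker (algebraMap P S))
  have hyI' : ∀ i, y i ∈ RingHom.ker (algebraMap P S) := fun i => by
    rw [hyI]
    exact Ideal.subset_span ⟨i, rfl⟩
  have hle : RingHom.ker (algebraMap P S) ≤ RingHom.ker (algebraMap P κ) := by
    intro x hx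
    rw [RingHom.mem_ker] at hx ⊢
    rw [IsScalarTower.algebraMap_apply P S κ, hx, map_zero]
  have hgen : ∀ x : κ ⊗[P] RingHom.ker (algebraMap P S), ∃ a : Fin c → κ,
      x = ∑ i, a i ⊗ₜ[P] (⟨y i, hyI' i⟩ : RingHom.ker (algebraMap P S)) := by
    intro x
    induction x using TensorProduct.induction_on with
    | zero => exact ⟨0, by simp⟩
    | tmul a b =>
      have hb : (b : P) ∈ Ideal.span (Set.range y) := hyI ▸ b.2
      obtain ⟨r, hr⟩ := (Ideal.mem_span_range_iff_exists_fun).1 hb
      refine ⟨fun i => r i • a, ?_⟩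
      have e1 : b = ∑ i, r i • (⟨y i, hyI' i⟩ : RingHom.ker (algebraMap P S)) := by
        apply Subtype.ext
        rw [← hr, AddSubmonoidClass.coe_finsetSum]
        rfl
      rw [e1, TensorProduct.tmul_sum]
      refine Finset.sum_congr rfl fun i _ => ?_
      rw [TensorProduct.tmul_smul, TensorProduct.smul_tmul']
    | add x y hx hy =>
      obtain ⟨a, rfl⟩ := hx
      obtain ⟨b, rfl⟩ := hy
      refine ⟨a + b, ?_⟩
      rw [← Finset.sum_add_distrib]
      refine Finset.sum_congr rfl fun i _ => ?_
      rw [← TensorProduct.add_tmul]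
      rfl
  -- the residue fields
  let m : ResidueField P →+* κ := ResidueField.map (algebraMap P S)
  have hmr : ∀ r : P, m (residue P r) = algebraMap P κ r := by
    intro r
    rw [IsScalarTower.algebraMap_apply P S κ]
    rfl
  have hmb : Function.Bijective m := by
    refine ⟨m.injective, fun x => ?_⟩
    obtain ⟨r, hr⟩ := hκs x
    exact ⟨residue P r, by rw [hmr, hr]⟩
  let e : κ ≃+* ResidueField P := (RingEquiv.ofBijective m hmb).symm
  have he : ∀ r : P, e (algebraMap P κ r) = residue P r := by
    intro r
    rw [← hmr]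
    change (RingEquiv.ofBijective m hmb).symm ((RingEquiv.ofBijective m hmb) (residue P r)) = _
    exact RingEquiv.symm_apply_apply _ _
  have hJ : ∀ x : RingHom.ker (algebraMap P κ), (x : P) ∈ maximalIdeal P := by
    intro x
    have h2 := x.2
    rw [RingHom.mem_ker, ← hmr, map_eq_zero, residue_eq_zero_iff] at h2
    exact h2
  let φ : κ ⊗[P] RingHom.ker (algebraMap P κ) →ₗ[P] CotangentSpace P :=
    TensorProduct.lift (LinearMap.mk₂ P
      (fun a x => e a • ((maximalIdeal P).toCotangent ⟨x, hJ x⟩ : CotangentSpace P))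
      (fun a b x => by rw [map_add, add_smul])
      (fun r a x => by
        rw [Algebra.smul_def, map_mul, he, mul_smul]
        rfl)
      (fun a x y => by
        rw [← smul_add, ← map_add]
        rfl)
      (fun r a x => by
        have h3 : (maximalIdeal P).toCotangent ⟨(r • x : RingHom.ker (algebraMap P κ)), hJ _⟩ =
            r • (maximalIdeal P).toCotangent ⟨x, hJ x⟩ := by
          rw [← map_smul]
          rfl
        rw [h3]
        exact smul_comm (e a) r _))
  have hφ : ∀ (a : κ) (x : RingHom.ker (algebraMap P κ)), φ (a ⊗ₜ[P] x) =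
      e a • ((maximalIdeal P).toCotangent ⟨x, hJ x⟩ : CotangentSpace P) := fun a x =>
    TensorProduct.lift.tmul _ _
  rw [injective_iff_map_eq_zero]
  intro x hx
  obtain ⟨a, rfl⟩ := hgen x
  have h4 : ∑ i, a i ⊗ₜ[P] (⟨y i, hle (hyI' i)⟩ : RingHom.ker (algebraMap P κ)) = 0 := by
    apply h1
    rw [map_zero, ← hx, map_sum, map_sum]
    refine Finset.sum_congr rfl fun i _ => ?_
    rw [cotangentComplexBaseChange_tmul, cotangentComplexBaseChange_tmul]
  have h5 := congrArg φ h4
  rw [map_sum, map_zero] at h5
  have h6 : ∀ i, ∃ r : P, algebraMap P κ r = a i := fun i => hκs (a i)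
  choose r hr using h6
  have h7 : ∑ i, residue P (r i) • ((maximalIdeal P).toCotangent ⟨y i, hy.1 i⟩ : CotangentSpace P)
      = 0 := by
    rw [← h5]
    refine Finset.sum_congr rfl fun i _ => ?_
    rw [hφ, ← hr i, he]
  rw [sum_cot hy.1 r] at h7
  have h8 := hy.2 r h7
  refine Finset.sum_eq_zero fun i _ => ?_
  have h9 : a i = 0 := by
    rw [← hr i, ← hmr, (residue_eq_zero_iff _).2 (h8 i), map_zero]
  rw [h9, TensorProduct.zero_tmul]

/-- Regular algebras of finite type over perfect fields are smooth. -/
theorem smooth_of_regular {k S : Type} [Field k] [PerfectField k] [CommRing S] [Algebra k S]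
    [Algebra.FiniteType k S] [IsRegularRing S] : Algebra.Smooth k S := by
  classical
  have hfp : Algebra.FinitePresentation k S := Algebra.FinitePresentation.of_finiteType.1 inferInstance
  refine { formallySmooth := smoothLocus_eq_univ_iff.1 ?_, finitePresentation := hfp }
  rw [Set.eq_univ_iff_forall]
  intro q
  change FormallySmooth k (Localization.AtPrime q.asIdeal)
  obtain ⟨n, f₀, hf₀⟩ := Algebra.FiniteType.iff_quotient_mvPolynomial''.mp
    (inferInstance : Algebra.FiniteType k S)
  let Q := Localization.AtPrime q.asIdeal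
  let 𝔫 : Ideal (MvPolynomial (Fin n) k) := q.asIdeal.comap f₀
  have h𝔫 : 𝔫.IsPrime := Ideal.comap_isPrime _ _
  let P' := Localization.AtPrime 𝔫
  let fP : P' →ₐ[k] Q := IsLocalization.liftAlgHom (M := 𝔫.primeCompl)
      (f := (IsScalarTower.toAlgHom k S Q).comp f₀) fun x ↦ by
    exact IsLocalization.map_units (M := q.asIdeal.primeCompl) Q ⟨f₀ x.1, x.2⟩
  have hf₁ : Function.Surjective fP := by
    intro x
    obtain ⟨x, ⟨s, hs⟩, rfl⟩ := IsLocalization.exists_mk'_eq q.asIdeal.primeCompl x
    obtain ⟨x, rfl⟩ := hf₀ x
    obtain ⟨s, rfl⟩ := hf₀ s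
    refine ⟨IsLocalization.mk' (M := 𝔫.primeCompl) _ x ⟨s, hs⟩, ?_⟩
    simp [fP, IsLocalization.lift_mk', Units.mul_inv_eq_iff_eq_mul, IsUnit.liftRight]
  algebraize [fP.toRingHom]
  have : FormallyEtale (MvPolynomial (Fin n) k) P' := .of_isLocalization 𝔫.primeCompl
  have : FormallySmooth k P' := .comp _ (MvPolynomial (Fin n) k) _
  have : Module.Free P' Ω[P'⁄k] :=
    .of_equiv (KaehlerDifferential.tensorKaehlerEquivOfFormallyEtale k (MvPolynomial (Fin n) k) P')
  have hfinΩ : Module.Finite P' Ω[P'⁄k] := inferInstance
  have hP' : IsRegularLocalRing P' := inferInstance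
  have hQ : IsRegularLocalRing Q := inferInstance
  have hst : IsScalarTower k P' Q := IsScalarTower.of_algebraMap_eq' fP.comp_algebraMap.symm
  have hess : EssFiniteType k (ResidueField Q) := by
    have h1 : EssFiniteType k Q := EssFiniteType.comp k S Q
    have h2 : EssFiniteType Q (ResidueField Q) := inferInstance
    exact EssFiniteType.comp k Q (ResidueField Q)
  exact fsm_aux (P := P') hf₁

end Pool.Agent.N864.GT
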