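import Pool.Agent.N864.GT.Proj7

/-!
# Local uniformization from regular models
-/

set_option autoImplicit false
set_option linter.unusedVariables false
set_option linter.unusedSectionVars false

namespace Pool.Agent.N864.GT9

open Pool.Agent.Y223.G Pool.Agent.TH188.QS Pool.Agent.W418.LU2 Pool.Agent.TH188.ARC
  Pool.Agent.Y223.INV Pool.Agent.N864.GQ Pool.Agent.N864.GR Pool.Agent.N864.GS
open Pool.Agent.N864.GT (InertiaCondition7 quot_model7)

/-- The model of the quotient over a Noetherian domain. -/
theorem rel_model7 {O K : Type} [CommRing O] [IsDomain O] [IsNoetherianRing O] [Field K]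
    [Algebra O K] (hO : Function.Injective (algebraMap O K)) {m : ℕ}
    (z : Fin (m + 1) → K) (hz : ∀ j, z j ≠ 0)
    (hfrac : Subfield.closure (CC O z 0 : Set K) = ⊤)
    (G : Subgroup (K ≃ₐ[O] K)) [Finite G]
    (hlin : ∀ σ ∈ G, ∀ j, σ (z j) ∈ Submodule.span O (Set.range z)) (T : Set ℕ)
    (hpt : ∀ j (𝔮 : Ideal (CC O z j)) [𝔮.IsPrime],
      InertiaCondition7 T G.subtype (LocalSubring.ofPrime (CC O z j) 𝔮).toSubring)
    (hF : ∀ x : K, (∀ σ ∈ G, σ x = x) → ∃ a b : O, x = algebraMap O K a / algebraMap O K b)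
    (F : Type) [Field F] [Algebra O F] [IsFractionRing O F] :
    ∃ (I : Type) (_ : Finite I) (w : I → F) (J : Set I),
      ModelG False (⊥ : Submodule O F) (⊤ : Subfield F) w J := by
  classical
  let i2 : Algebra F K := (IsFractionRing.lift hO).toAlgebra
  have i3 : IsScalarTower O F K := IsScalarTower.of_algebraMap_eq fun x =>
    (IsFractionRing.lift_algebraMap hO x).symm
  have hfr : ∀ S : Subfield K, (∀ o : O, algebraMap O K o ∈ S) → (∀ i j, z i / z j ∈ S) →
      S = ⊤ := by
    intro S hO' hS
    rw [← top_le_iff, ← hfrac, Subfield.closure_le]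
    intro x hx
    have hx' : x ∈ Algebra.adjoin O (Set.range fun i => z i / z 0) := hx
    clear hx
    induction hx' using Algebra.adjoin_induction with
    | mem x hx =>
      obtain ⟨i, rfl⟩ := hx
      exact hS i 0
    | algebraMap r => exact hO' r
    | add x y _ _ hx hy => exact S.add_mem hx hy
    | mul x y _ _ hx hy => exact S.mul_mem hx hy
  obtain ⟨d, I, hI, w, J, -, hmod, -⟩ := quot_model7 (F := F) hO T G.subtype (by
      intro x
      constructor
      · intro h
        obtain ⟨a, b, hab⟩ := hF x fun σ hσ => h ⟨σ, hσ⟩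
        refine ⟨algebraMap O F a / algebraMap O F b, ?_⟩
        rw [map_div₀, ← IsScalarTower.algebraMap_apply O F K,
          ← IsScalarTower.algebraMap_apply O F K, hab]
      · rintro ⟨y, rfl⟩ g
        obtain ⟨a, b, -, rfl⟩ := IsFractionRing.div_surjective (A := O) y
        rw [map_div₀, ← IsScalarTower.algebraMap_apply O F K,
          ← IsScalarTower.algebraMap_apply O F K, map_div₀]
        change (g : K ≃ₐ[O] K) _ / (g : K ≃ₐ[O] K) _ = _
        rw [AlgEquiv.commutes, AlgEquiv.commutes]) G.subtype_injective z hz hfr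
          (fun g j => hlin g g.2 j) hpt
  exact ⟨I, hI, w, J, hmod⟩

/-- Local uniformization from a regular model. -/
theorem lu_of_model {O F : Type} [CommRing O] [Field F] [Algebra O F] {I : Type} [Finite I]
    {w : I → F} {J : Set I} (hM : ModelG False (⊥ : Submodule O F) (⊤ : Subfield F) w J)
    (V : ValuationSubring F) (hV : ∀ r : O, algebraMap O F r ∈ V) :
    ∃ B : Subalgebra O F, B.FG ∧ (∀ b : B, (b : F) ∈ V) ∧
      ∃ P : Ideal B, ∃ (_ : P.IsPrime), (∀ b : B, b ∈ P ↔ V.valuation (b : F) < 1) ∧
        IsRegularLocalRing (Localization.AtPrime P) := by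
  classical
  obtain ⟨j, hj, hjV⟩ := hM.cv V hV
  have hBV : ∀ x ∈ Algebra.adjoin O (Set.range fun i => w i / w j), x ∈ V := by
    intro x hx
    induction hx using Algebra.adjoin_induction with
    | mem x hx =>
      obtain ⟨i, rfl⟩ := hx
      exact hjV i
    | algebraMap r => exact hV r
    | add x y _ _ hx hy => exact V.add_mem _ _ hx hy
    | mul x y _ _ hx hy => exact V.mul_mem _ _ hx hy
  let φ : Algebra.adjoin O (Set.range fun i => w i / w j) →+* V :=
    (Algebra.adjoin O (Set.range fun i => w i / w j)).toSubring.subtype.codRestrict V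
      fun x => hBV x.1 x.2
  refine ⟨Algebra.adjoin O (Set.range fun i => w i / w j), ?_, fun b => hBV b.1 b.2,
    (IsLocalRing.maximalIdeal V).comap φ, Ideal.comap_isPrime _ _, fun b => ?_, ?_⟩
  · exact ⟨(Set.finite_range fun i => w i / w j).toFinset, by rw [Set.Finite.coe_toFinset]⟩
  · exact V.valuation_lt_one_iff (φ b)
  · have hreg := hM.rg j hj
    have hprime : ((IsLocalRing.maximalIdeal V).comap φ).IsPrime := Ideal.comap_isPrime _ _
    exact hreg.isRegularLocalRing_localization _

end Pool.Agent.N864.GT9
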