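import Pool.Agent.N864.GT.Proj7
import Pool.Agent.N864.GS.Pts4

/-!
# Regular proper models over the integers
-/

set_option autoImplicit false
set_option linter.unusedVariables false
set_option linter.unusedSectionVars false

namespace Pool.Agent.N864.GT10

open Pool.Agent.Y223.G Pool.Agent.TH188.QS Pool.Agent.W418.LU2 Pool.Agent.TH188.ARC
  Pool.Agent.Y223.INV Pool.Agent.N864.GQ Pool.Agent.N864.GR Pool.Agent.N864.GS
  Pool.Agent.H918R2.Quad AlgebraicGeometry CategoryTheory
open Pool.Agent.N864.GT (InertiaCondition7 quot_model7)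

/-- Regular proper models of the quotients. -/
theorem grp_final7 {O K : Type} [CommRing O] [IsDomain O] [Module.Finite ℤ O] [Field K]
    [Algebra O K] (hO : Function.Injective (algebraMap O K)) {m : ℕ}
    (z : Fin (m + 1) → K) (hz : ∀ j, z j ≠ 0)
    (hfrac : Subfield.closure (CC O z 0 : Set K) = ⊤)
    (G : Subgroup (K ≃ₐ[O] K)) [Finite G]
    (hlin : ∀ σ ∈ G, ∀ j, σ (z j) ∈ Submodule.span O (Set.range z)) (T : Set ℕ)
    (hpt : ∀ j (𝔮 : Ideal (CC O z j)) [𝔮.IsPrime],
      InertiaCondition7 T G.subtype (LocalSubring.ofPrime (CC O z j) 𝔮).toSubring)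
    (F : Subfield K) (hF : ∀ x, x ∈ F ↔ ∀ σ ∈ G, σ x = x) {Y : Type} [Field Y] (i : Y ≃+* F) :
    ∃ (X' : Scheme.{0}) (_ : IsIntegral X') (g : X' ⟶ Spec (CommRingCat.of ℤ)),
      IsProper g ∧
      (∀ x : X',
        (((Module.finrank (IsLocalRing.ResidueField (X'.presheaf.stalk x))
            (IsLocalRing.CotangentSpace (X'.presheaf.stalk x)) : ℕ∞)) : WithBot ℕ∞)
          = ringKrullDim (X'.presheaf.stalk x)) ∧
      Nonempty (X'.functionField ≃+* Y) := by
  have : IsNoetherianRing O := isNoetherian_of_isNoetherianRing_of_finite ℤ O |> fun h =>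
    isNoetherianRing_iff.2 (isNoetherian_of_tower ℤ h)
  let r : O →+* F := (algebraMap O K).codRestrict F fun o => (hF _).2 fun σ _ => σ.commutes o
  let _ : Algebra O F := r.toAlgebra
  have hst : IsScalarTower O F K := IsScalarTower.of_algebraMap_eq fun o => rfl
  have hinj : Function.Injective (algebraMap O F) := by
    intro a b hab
    exact hO (congrArg (Subtype.val : F → K) hab)
  have hM : HasModule O F := by
    obtain ⟨d, I, hI, w, J, -, hmod, -⟩ := quot_model7 (F := F) hO T G.subtype (by
      intro x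
      constructor
      · intro hx
        exact ⟨⟨x, (hF x).2 fun σ hσ => hx ⟨σ, hσ⟩⟩, rfl⟩
      · rintro ⟨f, rfl⟩ g
        exact (hF _).1 f.2 g g.2) G.subtype_injective z hz (by
      intro S hO' hS
      rw [← top_le_iff, ← hfrac, Subfield.closure_le]
      intro x hx
      have hx' : x ∈ Algebra.adjoin O (Set.range fun i => z i / z 0) := hx
      clear hx
      induction hx' using Algebra.adjoin_induction with
      | mem x hx =>
        obtain ⟨i, rfl⟩ := hx
        exact hS i 0
      | algebraMap r => exact hO' r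
      | add x y _ _ hx hy => exact S.add_mem hx hy
      | mul x y _ _ hx hy => exact S.mul_mem hx hy) (fun g j => hlin g g.2 j) hpt
    have htop : (⊤ : Subfield F) = (algebraMap F F).fieldRange := by
      ext x
      constructor
      · exact fun _ => ⟨x, rfl⟩
      · exact fun _ => Subfield.mem_top _
    rw [htop] at hmod
    obtain ⟨M', h1, h2, h3, h4, -⟩ := Pool.Agent.Y246.G.t_HASM O F F hinj False ⊥ I w J hmod
    exact ⟨M', h1, h2, h3, h4⟩
  obtain ⟨X', hX', g, hg, hreg', ⟨i'⟩⟩ := model_of_hasModule hinj hM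
  exact ⟨X', hX', g, hg, hreg', ⟨i'.trans i.symm⟩⟩

end Pool.Agent.N864.GT10
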