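import Pool.Agent.N864.GT.Pts5

/-!
# The conditions at the points, in mixed characteristic
-/

set_option autoImplicit false
set_option linter.unusedSectionVars false
set_option linter.unusedVariables false

namespace Pool.Agent.N864.GT

open IsLocalRing Pool.Agent.TH188.QS Pool.Agent.TH188.ARC Pool.Agent.W418.LU2
  Pool.Agent.Y223.G Pool.Agent.Y223.INV Pool.Agent.N864.GQ Pool.Agent.N864.GR

section

variable {O K G : Type} [CommRing O] [Field K] [Algebra O K] [Group G]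

/-- The conditions at the points with inertia of prime order. -/
def Wild7 (p : ℕ) (σ : K ≃ₐ[O] K) (R : Subring K) : Prop :=
  ((∀ y ∈ fixedIdeal σ R, y ≠ 0 → IsRegularRing (chart σ R y)) ∧ (p = 2 ∨ ActsByScalar σ R)) ∨
    (IsRegularLocalRing R ∧ Good p σ R)

/-- The conditions on the inertia group. -/
def InertiaCondition7 (T : Set ℕ) (ρ : G →* (K ≃ₐ[O] K)) (R : Subring K) : Prop :=
  ∃ τ : G, (∀ g, IsFixed (ρ g) R ↔ g ∈ Subgroup.zpowers τ) ∧
    ((IsRegularLocalRing R ∧ IsUnit ((orderOf τ : ℕ) : R) ∧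
        ∀ l : ℕ, l.Prime → l ∣ orderOf τ → l ∈ T) ∨
      ((orderOf τ).Prime ∧ orderOf τ ∉ T ∧ Wild7 (orderOf τ) (ρ τ) R))

variable {ρ : G →* (K ≃ₐ[O] K)} {A : Subalgebra O K} {W : ValuationSubring K} {Q : Subring K}
  (hst : ∀ g, ∀ a ∈ A, ρ g a ∈ A)

/-- The conditions at the points. -/
theorem pt_of7 [Fintype G] {T : Set ℕ} (hAW : A.toSubring ≤ W.toSubring)
    (h : InertiaCondition7 T ρ (lo W.toSubring A.toSubring)) : PT5 hst (fun l => l ∈ T) W := by
  classical
  have hQW : lo W.toSubring A.toSubring ≤ W.toSubring := lo_le hAW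
  have hIC : IC W.toSubring (lo W.toSubring A.toSubring) := ic_lo hAW
  have hloc : IsLocalRing (lo W.toSubring A.toSubring) := isLocalRing_lo (loc_V W) hAW
  have hfx : ∀ g, Fx (ρ g) W (lo W.toSubring A.toSubring) ↔
      IsFixed (ρ g) (lo W.toSubring A.toSubring) := fun g => fx_iff' hQW hIC hloc (ρ g)
  obtain ⟨τ, hI, ⟨hreg, hu, hT⟩ | ⟨hp, hpT, hG⟩⟩ := h
  · exact Or.inr (Or.inr ⟨hreg, τ, fun g => (hfx g).trans (hI g), hu, hT⟩)
  · obtain ⟨p, hτ⟩ : ∃ p, orderOf τ = p := ⟨_, rfl⟩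
    rw [hτ] at hp hpT hG
    have hτp : τ ^ p = 1 := by rw [← hτ, pow_orderOf_eq_one]
    have hF : Fx (ρ τ) W (lo W.toSubring A.toSubring) :=
      (hfx τ).2 ((hI τ).2 (Subgroup.mem_zpowers τ))
    have h22 : p = 2 → ∀ x, ρ τ (ρ τ x) = x := by
      intro h2 x
      rw [h2] at hτp
      rw [← AlgEquiv.mul_apply, ← map_mul, ← pow_two, hτp, map_one]
      rfl
    have hpp : ∀ x, (ρ τ)^[p] x = x := by
      intro x
      have h1 : ∀ n : ℕ, (ρ τ)^[n] x = ρ (τ ^ n) x := by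
        intro n
        induction n with
        | zero => rw [pow_zero, map_one]; rfl
        | succ n ih => rw [Function.iterate_succ_apply', ih, pow_succ', map_mul]; rfl
      rw [h1, hτp, map_one]
      rfl
    have hsc2 : p = 2 → ∃ u, ∀ x ∈ fixR (qact hF), qact hF x - u * x ∈ fixR (qact hF) ^ 2 :=
      fun h2 => ⟨-1, sc_two fun x => Subtype.ext (h22 h2 x)⟩
    have hsc : ActsByScalar (ρ τ) (lo W.toSubring A.toSubring) →
        ∃ u, ∀ x ∈ fixR (qact hF), qact hF x - u * x ∈ fixR (qact hF) ^ 2 := by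
      rintro ⟨u, hu⟩
      rw [fixedIdeal_eq hF] at hu
      exact ⟨u, fun x hx => hu x hx _ rfl⟩
    refine Or.inr (Or.inl ⟨p, τ, hp, hpT, hτ,
      fun g hg => (hI g).1 ((hfx g).1 hg), ?_, hF, ?_⟩)
    · intro y hy hy0 hBW
      have hend : ∀ {t' : K} {c : ℕ} {z : Fin c → K},
          Gd (ρ τ) W (lo W.toSubring A.toSubring) t' z →
          IsRegularLocalRing (lo W.toSubring (BW (fixI hst τ) y).toSubring) := by
        intro t' c z hGd
        have e : fixI hst τ = fixI hst τ ^ 1 * ⊤ := by rw [pow_one, Ideal.mul_top]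
        have h1 : (1 : A) ∈ (⊤ : Ideal A) := trivial
        rw [e] at hy hBW ⊢
        refine blow_centre hst hAW hF hGd le_rfl h1 one_ne_zero ?_ hy hy0 hBW
        rw [OneMemClass.coe_one, inv_one]
        exact W.one_mem
      rcases hG with ⟨hreg, -⟩ | ⟨hreg, ⟨hu, -⟩ | ⟨t, δ, ht0, hδ, hJ⟩⟩
      · obtain ⟨h1, h2⟩ := chart_local hst hAW hF hy hy0 hBW
        rw [← h2]
        refine regular_lo h1 (hreg _ ?_ fun h => hy0 (congrArg Subtype.val h))
        rw [fixedIdeal_eq hF]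
        have h3 := fixI_pow_mem hst hF 1 y (by rwa [pow_one])
        rwa [pow_one] at h3
      · obtain ⟨t', c, z, hGd⟩ := gd_of_tame hpp hQW hIC hreg hF hu
        exact hend hGd
      · obtain ⟨t', c, z, hGd⟩ := gd_of_regular hQW hIC hreg
          ⟨t, δ, ht0, hδ, hJ.imp id And.left⟩
        exact hend hGd
    · rcases hG with ⟨-, h2⟩ | ⟨hreg, ⟨-, h2⟩ | ⟨t, δ, ht0, hδ, hJ | ⟨hJ, h2⟩⟩⟩
      · exact h2.elim hsc2 hsc
      · exact h2.elim hsc2 hsc
      · exact sc_top (t := t) (δ := δ) (fun x => Subtype.ext (hδ x)) hJ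
      · exact h2.elim hsc2 hsc

end

end Pool.Agent.N864.GT
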