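import Pool.Agent.N864.GT.Dom
import Pool.Agent.N864.GT.Pts7

/-!
# The model of the quotient of a projective variety, with its charts
-/

set_option autoImplicit false
set_option linter.unusedSectionVars false
set_option linter.unusedVariables false

namespace Pool.Agent.N864.GT

open Pool.Agent.Y223.G Pool.Agent.TH188.QS Pool.Agent.W418.LU2 Pool.Agent.TH188.ARC
  Pool.Agent.Y223.INV Pool.Agent.N864.GQ Pool.Agent.N864.GR Pool.Agent.N864.GS
open Pool.Agent.Y25.G (MN_mul MN_one MN_zero MN_z MN_succ MN_pow_z FS_pow FS_mul FS_one)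
open Pool.Agent.Y232.G6 (Ph Ph_hm mem_res)

/-- The model of the quotient. -/
theorem quot_model7 {k F K G : Type} [CommRing k] [IsDomain k] [IsNoetherianRing k] [Field F]
    [Field K] [Algebra k F] [Algebra k K] [Algebra F K] [IsScalarTower k F K]
    (hinjK : Function.Injective (algebraMap k K)) [Group G] [Finite G] (T₁ : Set ℕ)
    (ρ : G →* (K ≃ₐ[k] K))
    (hfix : ∀ x, (∀ g, ρ g x = x) ↔ ∃ f : F, algebraMap F K f = x)
    (hρ : Function.Injective ρ) {m : ℕ} (z : Fin (m + 1) → K) (hz : ∀ j, z j ≠ 0)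
    (hfr : ∀ S : Subfield K, (∀ o : k, algebraMap k K o ∈ S) → (∀ i j, z i / z j ∈ S) → S = ⊤)
    (hlin : ∀ g j, ρ g (z j) ∈ Submodule.span k (Set.range z))
    (hpt : ∀ j (𝔮 : Ideal (CC k z j)) [𝔮.IsPrime],
      InertiaCondition7 T₁ ρ (LocalSubring.ofPrime (CC k z j) 𝔮).toSubring) :
    ∃ (d : ℕ) (I : Type) (_ : Finite I) (w : I → F) (J : Set I),
      1 ≤ d ∧ ModelG False (⊥ : Submodule k F) (⊤ : Subfield F) w J ∧
      ∀ j ∈ J, ∃ a : K, a ∈ FS k z d ∧ a ≠ 0 ∧ (∀ g, ρ g a = a) ∧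
        ∀ x : F, algebraMap F K x ∈ AF k z d a →
          x ∈ Algebra.adjoin k (Set.range fun i => w i / w j) := by
  classical
  let _ : Fintype G := Fintype.ofFinite G
  let ι : F →ₐ[k] K := IsScalarTower.toAlgHom k F K
  have hinjF : Function.Injective (algebraMap k F) := by
    intro a b hab
    apply hinjK
    rw [IsScalarTower.algebraMap_apply k F K, IsScalarTower.algebraMap_apply k F K, hab]
  obtain ⟨d, S, hd1, hSfin, hS, hval⟩ := exists_forms ρ z ι hz hlin 1 le_rfl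
  rw [mul_one] at hS hval
  have hfinS : Finite S := hSfin
  have hst : ∀ a : S, ∀ g, ∀ x ∈ AF k z d a, ρ g x ∈ AF k z d a := fun a g =>
    AF_act hlin (hS a a.2).2.2 g
  have hex : ∀ a : S, ∃ y : F, ι y = a := fun a => (hfix _).1 fun g => (hS a a.2).2.2 g
  choose h hh using hex
  have hh0 : ∀ a, h a ≠ 0 := by
    intro a h0
    have h1 := hh a
    rw [h0, map_zero] at h1
    exact (hS a a.2).2.1 h1.symm
  obtain ⟨T₀, hT₀⟩ : ∃ T : ℕ → Prop, T = fun l => l ∈ T₁ := ⟨_, rfl⟩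
  obtain ⟨R, hR⟩ : ∃ R : S → Subalgebra k (LP F), R = fun a => res ι (RI (AJ (hst a) (ex T₀))) :=
    ⟨_, rfl⟩
  have hmemR : ∀ (a : S) (y : F), hm 0 y ∈ R a ↔ ι y ∈ AF k z d a := by
    intro a y
    rw [hR, mem_res, Ph_hm]
    constructor
    · intro h
      obtain ⟨b, -, hb⟩ := of_hm_RI h
      rw [← hb]
      exact b.2
    · intro h
      exact b_RI (𝔞 := AJ (hst a) (ex T₀)) ⟨_, h⟩
  have hfaith : ∀ (a : S) g, (∀ x ∈ AF k z d a, ρ g x = x) → g = 1 := by
    intro a g hg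
    apply hρ
    rw [map_one]
    ext y
    obtain ⟨b, hb, b', hb', -, rfl⟩ := AF_frac (O := k) hz (hS a a.2).2.1 hd1 hfr y
    rw [map_div₀, hg b hb, hg b' hb']
    rfl
  have hCh : ∀ a, Ch (R a) := by
    intro a
    rw [hR]
    have hft := AF_ft (O := k) z d a
    refine ch_res5 (hst a) ι (fun x => hfix x) (hfaith a) (AJ_ne (hst a) (hfaith a) _)
      (fun x hx g => AJ_act (hst a) (ex T₀) (fun g h => ex_conj T₀ g h) hx g) ?_
    intro W hAW
    obtain ⟨j, hCW, hlo⟩ := lo_AF hz (hS a a.2).2.1 (hS a a.2).1 hd1 hAW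
    refine ⟨T₀, Lq_refl W _, ?_⟩
    rw [hT₀]
    refine pt_of7 (hst a) hAW ?_
    obtain ⟨P, hP, hRP⟩ := exists_centre hCW
    rw [hlo, ← hRP]
    exact @hpt j P hP
  have hquot : ∀ a b : S, ι (h b / h a) = (b : K) / a := by
    intro a b
    rw [map_div₀, hh, hh]
  obtain ⟨r, T, hT, C, H, hAt, hdom⟩ := atlas_dom k F hinjF False ⊥ ⊤ S R h hCh hh0
    (fun a => Subfield.mem_top _) (fun _ _ x _ => Subfield.mem_top x)
    (fun a b => by
      rw [hmemR, hquot]
      exact FS_AF (hS b b.2).1)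
    (fun a b f hf => by
      rw [hR] at hf
      have hf' : Ph ι f ∈ RI (AJ (hst b) (ex T₀)) := mem_res.1 hf
      obtain ⟨k, hk⟩ := glue_RI4 (u := (b : K) / a) (FS_AF (hS b b.2).1) (hst a) (hst b)
        (fun g => by rw [map_div₀, (hS a a.2).2.2, (hS b b.2).2.2])
        (AF_glue (hS a a.2).2.1 (hS b b.2).1 (hS b b.2).2.1) (ex T₀) _ hf'
      refine ⟨k, ?_⟩
      rw [hR, mem_res, map_mul, map_pow, Ph_hm, hquot]
      exact hk)
    (fun V hV => by
      obtain ⟨Φ, hΦ, hΦV⟩ := hval V hV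
      refine ⟨⟨Φ, hΦ⟩, fun x hx => ?_⟩
      rw [hmemR] at hx
      exact hΦV x hx)
    (fun a x _ => by
      obtain ⟨b, hb, b', hb', hb0, hx⟩ := AF_frac (O := k) hz (hS a a.2).2.1 hd1 hfr (ι x)
      have hsplit : ∏ g : G, ρ g b' = b' * ∏ g ∈ Finset.univ.erase 1, ρ g b' := by
        rw [← Finset.mul_prod_erase Finset.univ _ (Finset.mem_univ (1 : G)), map_one]
        rfl
      have hmem : ∏ g ∈ Finset.univ.erase (1 : G), ρ g b' ∈ AF k z d a :=
        Subalgebra.prod_mem _ fun g _ => hst a g b' hb'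
      have hne : ∏ g : G, ρ g b' ≠ 0 :=
        Finset.prod_ne_zero_iff.2 fun g _ h0 => hb0 ((map_eq_zero _).1 h0)
      have hinv : ∀ g, ρ g (∏ g : G, ρ g b') = ∏ g : G, ρ g b' := by
        intro g
        rw [map_prod]
        refine Fintype.prod_equiv (Equiv.mulLeft g) _ _ fun g' => ?_
        rw [Equiv.coe_mulLeft, map_mul, AlgEquiv.mul_apply]
      obtain ⟨y', hy'⟩ := (hfix _).1 hinv
      have hy'' : ι y' = ∏ g : G, ρ g b' := hy'
      have hy0 : y' ≠ 0 := by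
        rintro rfl
        rw [map_zero] at hy''
        exact hne hy''.symm
      refine ⟨x * y', y', ?_, ?_, hy0, ?_⟩
      · rw [hmemR, map_mul, hy'', hx, hsplit]
        have e : b / b' * (b' * ∏ g ∈ Finset.univ.erase (1 : G), ρ g b') =
            b * ∏ g ∈ Finset.univ.erase (1 : G), ρ g b' := by
          field_simp
        rw [e]
        exact Subalgebra.mul_mem _ hb hmem
      · rw [hmemR, hy'', hsplit]
        exact Subalgebra.mul_mem _ hb' hmem
      · rw [mul_div_cancel_right₀ _ hy0])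
    (fun h => absurd h id) (fun h => absurd h id)
  obtain ⟨I, hI, w, J, hmod, hdom'⟩ := model_dom k F hinjF False ⊥ Submodule.fg_bot ⊤
    (fun h => absurd h id) r T C H hAt
  refine ⟨d, I, hI, w, J, hd1, hmod, fun j hj => ?_⟩
  obtain ⟨t, ht⟩ := hdom' j hj
  obtain ⟨a, ha⟩ := hdom t
  exact ⟨a, (hS a a.2).1, (hS a a.2).2.1, (hS a a.2).2.2, fun x hx =>
    ht x (ha x ((hmemR a x).2 hx))⟩

end Pool.Agent.N864.GT
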