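import Pool.Agent.N864.GT.Sm
import Pool.Agent.N864.RQ.Crit
import Pool.Agent.Y363.G.Atlas

/-!
# A graded algebra which is regular outside of the vertex gives a resolution
-/

set_option autoImplicit false
set_option linter.unusedSectionVars false
set_option linter.unusedVariables false

namespace Pool.Agent.N864.GT

open AlgebraicGeometry CategoryTheory

theorem resolution_of_ch {k A' K' : Type} [Field k] [PerfectField k] [CommRing A']
    [IsDomain A'] [Algebra k A']
    [Field K'] [Algebra k K'] (g : A' →ₐ[k] K') (hg : Function.Injective g)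
    (R : Subalgebra k (Pool.Agent.Y223.G.LP K')) (hCh : Pool.Agent.Y223.G.Ch R)
    (hb : ∀ a, Pool.Agent.Y223.G.hm 0 (g a) ∈ R)
    (hc : ∀ f ∈ R, ∀ d, ∃ a, f.coeff d = g a) :
    Pool.Agent.H920R2.HasResolution (X := Spec (CommRingCat.of A'))
      (Spec.map (CommRingCat.ofHom (algebraMap k A'))) := by
  classical
  obtain ⟨T, hT, e, η, hR, he, hη, hrad⟩ := Pool.Agent.Y363.G.exists_fam hCh
  have hcov : Pool.Agent.H920R2.Cover g g R ⊤ e η hR :=
    { inj := hg
      grR := hCh.gr
      grF := fun f _ d => Algebra.mem_top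
      sR := hCh.ss
      sF := Algebra.mem_top
      bR := hb
      cR := hc
      gF := fun a => Algebra.mem_top
      gAB := fun a => ⟨a, rfl⟩
      gBA := fun b _ => ⟨b, rfl⟩
      invF := fun d a _ => Algebra.mem_top
      int := fun V h b => h b
      epos := he
      η0 := hη
      hF := fun t => Algebra.mem_top
      sm := fun t => by
        have h1 := hCh.rg (e t) (η t) (hR t) (he t) (hη t)
        have hftl : Algebra.FiniteType k
            (Pool.Agent.Y223.G.loc R (Pool.Agent.Y223.G.hm (e t) (η t)) (hR t)) :=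
          Pool.Agent.Y223.G.ft_loc hCh.ft (hR t) (Pool.Agent.Y223.G.isUnit_hm (hη t))
        have h2 : Algebra.Smooth k
            (Pool.Agent.Y223.G.loc R (Pool.Agent.Y223.G.hm (e t) (η t)) (hR t)) :=
          smooth_of_regular
        have h3 : Pool.Agent.H920R2.loc R (Pool.Agent.H920R2.hm (e t) (η t)) (hR t) ⊓ ⊤ =
            Pool.Agent.Y223.G.loc R (Pool.Agent.Y223.G.hm (e t) (η t)) (hR t) := by
          rw [inf_top_eq]
          rfl
        rw [h3]
        exact h2
      ft := hCh.ft
      pos := hCh.pos
      rad := fun d a h hd => ⟨1, by rw [pow_one]; exact hrad d a h hd⟩ }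
  exact Pool.Agent.H920R2.hasResolution_of_cover hcov

end Pool.Agent.N864.GT
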