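import Pool.Agent.N864.GS.Main4
import Pool.Agent.N864.GT.Res

/-!
# Points at which the blowing up of the ideal of the fixed points is regular
-/

set_option autoImplicit false
set_option linter.unusedSectionVars false
set_option linter.unusedVariables false

namespace Pool.Agent.N864.GT

open IsLocalRing Pool.Agent.TH188.QS Pool.Agent.TH188.ARC Pool.Agent.W418.LU2
  Pool.Agent.Y223.G Pool.Agent.Y223.INV Pool.Agent.N864.GQ Pool.Agent.N864.GR
open Pool.Agent.Y232.G6 (Ph Ph_hm mem_res)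

variable {O K G : Type} [CommRing O] [Field K] [Algebra O K] [Group G]
  {ρ : G →* (K ≃ₐ[O] K)} {A : Subalgebra O K}

lemma blow_pow {W : ValuationSubring K} (hAW : A.toSubring ≤ W.toSubring) {I V : Ideal A} {m : ℕ}
    (hm : 1 ≤ m) {v₀ : A} (hv₀ : v₀ ∈ V) (hv0 : (v₀ : K) ≠ 0) (hvW : (v₀ : K)⁻¹ ∈ W) {w : A}
    (hw : w ∈ I ^ m * V) (hw0 : (w : K) ≠ 0) (hBW : (BW (I ^ m * V) w).toSubring ≤ W.toSubring)
    {y : A} (hy : y ∈ I) (hy0 : (y : K) ≠ 0) (hyW : ∀ l ∈ I, (l : K) / y ∈ W) :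
    (BW I y).toSubring ≤ W.toSubring ∧
      lo W.toSubring (BW (I ^ m * V) w).toSubring = lo W.toSubring (BW I y).toSubring := by
  have hBI : (BW I y).toSubring ≤ W.toSubring := BW_le (fun a ha => hAW ha) hyW
  have hym0 : (y : K) ^ m ≠ 0 := pow_ne_zero _ hy0
  have hdivW : ∀ l ∈ I ^ m, (l : K) / (y : K) ^ m ∈ W.toSubring :=
    div_powI (T := W.toSubring) (fun a ha => hAW ha) hyW m
  have hdivB : ∀ l ∈ I ^ m, (l : K) / (y : K) ^ m ∈ (BW I y).toSubring :=
    div_powI (T := (BW I y).toSubring) (fun a ha => BW_A y ha) (fun l hl => BW_div y hl) m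
  have hwI : w ∈ I ^ m := Ideal.mul_le_left hw
  have hyv : (y : K) ^ m * v₀ / w ∈ BW (I ^ m * V) w :=
    BW_div (𝔞 := I ^ m * V) w (a := y ^ m * v₀) (Ideal.mul_mem_mul (Ideal.pow_mem_pow hy m) hv₀)
  refine ⟨hBI, le_antisymm ?_ ?_⟩
  · have h1 : (w : K) / (y : K) ^ m ∈ lo W.toSubring (BW I y).toSubring :=
      le_lo _ _ (hdivB w hwI)
    have h2 : ((w : K) / (y : K) ^ m)⁻¹ ∈ W.toSubring := by
      have e : ((w : K) / (y : K) ^ m)⁻¹ = (y : K) ^ m * v₀ / w * (v₀ : K)⁻¹ := by field_simp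
      rw [e]
      exact W.mul_mem _ _ (hBW hyv) hvW
    have h3 : ((w : K) / (y : K) ^ m)⁻¹ ∈ lo W.toSubring (BW I y).toSubring :=
      ic_lo hBI _ h1 (div_ne_zero hw0 hym0) h2
    have h4 : (BW (I ^ m * V) w).toSubring ≤ lo W.toSubring (BW I y).toSubring := by
      refine BW_le (fun a ha => le_lo _ _ (BW_A y ha)) fun a ha => ?_
      have e : (a : K) / w = (a : K) / (y : K) ^ m * ((w : K) / (y : K) ^ m)⁻¹ := by field_simp
      rw [e]
      exact Subring.mul_mem _ (le_lo _ _ (hdivB a (Ideal.mul_le_left ha))) h3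
    exact lo_le_lo hBI h4
  · have h1 : (y : K) ^ m * v₀ / w ∈ lo W.toSubring (BW (I ^ m * V) w).toSubring :=
      le_lo _ _ hyv
    have h2 : ((y : K) ^ m * v₀ / w)⁻¹ ∈ W.toSubring := by
      have e : ((y : K) ^ m * v₀ / w)⁻¹ = (w : K) / (y : K) ^ m * (v₀ : K)⁻¹ := by field_simp
      rw [e]
      exact W.mul_mem _ _ (hdivW w hwI) hvW
    have h3 : ((y : K) ^ m * v₀ / w)⁻¹ ∈ lo W.toSubring (BW (I ^ m * V) w).toSubring :=
      ic_lo hBW _ h1 (div_ne_zero (mul_ne_zero hym0 hv0) hw0) h2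
    have h4 : (BW I y).toSubring ≤ lo W.toSubring (BW (I ^ m * V) w).toSubring := by
      refine BW_le (fun a ha => le_lo _ _ (BW_A w ha)) fun l hl => ?_
      have h5 : (y : K) ^ (m - 1) * l * v₀ / w ∈ BW (I ^ m * V) w := by
        refine BW_div (𝔞 := I ^ m * V) w (a := y ^ (m - 1) * l * v₀) (Ideal.mul_mem_mul ?_ hv₀)
        have e2 : I ^ m = I ^ (m - 1) * I := by rw [← pow_succ, Nat.sub_add_cancel hm]
        rw [e2]
        exact Ideal.mul_mem_mul (Ideal.pow_mem_pow hy _) hl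
      have e : (l : K) / y = (y : K) ^ (m - 1) * l * v₀ / w * ((y : K) ^ m * v₀ / w)⁻¹ := by
        have e2 : (y : K) ^ m = (y : K) ^ (m - 1) * y := by
          rw [← pow_succ, Nat.sub_add_cancel hm]
        have hy1 : (y : K) ^ (m - 1) ≠ 0 := pow_ne_zero _ hy0
        rw [e2]
        field_simp
      rw [e]
      exact Subring.mul_mem _ (le_lo _ _ h5) h3
    exact lo_le_lo hBW h4

section fin

variable [Fintype G] (hst : ∀ g, ∀ a ∈ A, ρ g a ∈ A)

lemma exists_max_elt [IsNoetherianRing A] {W : ValuationSubring K}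
    (hAW : A.toSubring ≤ W.toSubring)
    (hfaith : ∀ g, (∀ a ∈ A, ρ g a = a) → g = 1) {τ : G} (hτ1 : τ ≠ 1) :
    ∃ y ∈ fixI hst τ, (y : K) ≠ 0 ∧ ∀ l ∈ fixI hst τ, (l : K) / y ∈ W := by
  obtain ⟨a, ha, ha'⟩ := fixI_fg_max hst hAW (fixI_ne_bot hst hfaith hτ1)
  exact ⟨_, fixI_mem hst τ a, ha, ha'⟩

/-- The conditions at a point. -/
def PT5 (T : ℕ → Prop) (W : ValuationSubring K) : Prop :=
  (IsRegularLocalRing (lo W.toSubring A.toSubring) ∧
    ∀ g, Fx (ρ g) W (lo W.toSubring A.toSubring) → g = 1) ∨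
  (∃ (p : ℕ) (τ : G), p.Prime ∧ ¬ T p ∧ orderOf τ = p ∧
      (∀ g, Fx (ρ g) W (lo W.toSubring A.toSubring) → g ∈ Subgroup.zpowers τ) ∧
      (∀ y ∈ fixI hst τ, (y : K) ≠ 0 → (BW (fixI hst τ) y).toSubring ≤ W.toSubring →
        IsRegularLocalRing (lo W.toSubring (BW (fixI hst τ) y).toSubring)) ∧
      ∃ hF : Fx (ρ τ) W (lo W.toSubring A.toSubring), ∃ u, ∀ x ∈ fixR (qact hF),
        qact hF x - u * x ∈ fixR (qact hF) ^ 2) ∨
  (IsRegularLocalRing (lo W.toSubring A.toSubring) ∧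
    ∃ σ : G, (∀ g, Fx (ρ g) W (lo W.toSubring A.toSubring) ↔ g ∈ Subgroup.zpowers σ) ∧
      IsUnit ((orderOf σ : ℕ) : lo W.toSubring A.toSubring) ∧
      ∀ l : ℕ, l.Prime → l ∣ orderOf σ → T l)

variable {W : ValuationSubring K} {T : ℕ → Prop} {𝔞 : Ideal A}

/-- The local rings of the charts of the blowing up are regular. -/
theorem BW_pt5 (hfaith : ∀ g, (∀ a ∈ A, ρ g a = a) → g = 1)
    (hAW : A.toSubring ≤ W.toSubring) [IsNoetherianRing A]
    (hloc : PT5 hst T W) (w : A) (hw : w ∈ AJ hst (ex T))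
    (hw0 : (w : K) ≠ 0) (hBW : (BW (AJ hst (ex T)) w).toSubring ≤ W.toSubring) :
    IsRegularLocalRing (lo W.toSubring (BW (AJ hst (ex T)) w).toSubring) := by
  classical
  obtain ⟨hreg, h⟩ | ⟨p, τ, hp, hpT, hτ, hI, hG, hF, hsc⟩ | ⟨hreg, σ, hI, hu, hT⟩ := hloc
  · obtain ⟨v, hv, hvq⟩ := PI_not_le hst (ex T) (s := ∅) (ctr hAW) (ctr_prime hAW) fun g hg =>
      Or.inl (h g (fx_of_le hst hAW hg))
    rw [Finset.sdiff_empty] at hv
    obtain ⟨hv0, hvW⟩ := unit_of_not_ctr hAW hvq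
    exact blow_unit hAW hw0 hBW hv hv0 hvW hreg
  · have hτ1 : τ ≠ 1 := by
      rintro rfl
      rw [orderOf_one] at hτ
      exact hp.one_lt.ne hτ
    have hτp : τ ^ p = 1 := by rw [← hτ, pow_orderOf_eq_one]
    obtain ⟨v, hv, hvq⟩ := PI_not_le hst (ex T) (s := cy τ) (ctr hAW) (ctr_prime hAW)
      fun g hg => by
        by_cases hg1 : g = 1
        · exact Or.inl hg1
        · exact Or.inr (mem_cy.2 ⟨hI g (fx_of_le hst hAW hg), hg1⟩)
    obtain ⟨hv0, hvW⟩ := unit_of_not_ctr hAW hvq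
    have hAI := AJ_split hst (ex T) (cy τ) (cy_sub τ)
    rw [PI_const hst (ex T) (s := cy τ) (I := fixI hst τ) fun g hg =>
      fixI_eq hst hp hτp hτ1 (mem_cy.1 hg).1 (mem_cy.1 hg).2] at hAI
    rw [hAI] at hw hBW ⊢
    have hm1 : 1 ≤ ∑ g ∈ cy τ, ex T g := by
      calc 1 ≤ ex T τ := ex_pos T τ
        _ ≤ ∑ g ∈ cy τ, ex T g := Finset.single_le_sum (f := ex T) (fun _ _ => Nat.zero_le _)
          (mem_cy.2 ⟨Subgroup.mem_zpowers τ, hτ1⟩)
    obtain ⟨y, hy, hy0, hyW⟩ := exists_max_elt hst hAW hfaith hτ1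
    obtain ⟨h3, h4⟩ := blow_pow hAW hm1 hv hv0 hvW hw hw0 hBW hy hy0 hyW
    rw [h4]
    exact hG y hy hy0 h3
  · obtain ⟨v, hv, hvq⟩ := PI_not_le hst (ex T) (s := cy σ) (ctr hAW) (ctr_prime hAW)
      fun g hg => by
        by_cases hg1 : g = 1
        · exact Or.inl hg1
        · exact Or.inr (mem_cy.2 ⟨(hI g).1 (fx_of_le hst hAW hg), hg1⟩)
    obtain ⟨hv0, hvW⟩ := unit_of_not_ctr hAW hvq
    have hAI := AJ_split hst (ex T) (cy σ) (cy_sub σ)
    rw [hAI] at hw hBW ⊢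
    have hne : ∀ g ∈ cy σ, ∃ x ∈ Gs hst g, x ≠ 0 := by
      intro g hg
      obtain ⟨l, hl, hl0⟩ := Submodule.exists_mem_ne_zero_of_ne_bot
        (fixI_ne_bot hst hfaith (mem_cy.1 hg).2)
      exact ⟨_, ⟨l, hl, rfl⟩, fun h => hl0 (Subtype.ext h)⟩
    refine blow_multi hst hAW (fun g _ => ex_pos T g) hne ?_ hreg
      (fun g hg h hh => fixI_sup hst hg hh) hv hv0 hvW hw hw0 hBW
    intro g hg
    have hFg := (hI g).2 (mem_cy.1 hg).1
    have hgo : orderOf g ∣ orderOf σ := orderOf_dvd_of_mem_zpowers (mem_cy.1 hg).1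
    obtain ⟨c, z, hG⟩ := gd_of_tame1 (σ := ρ g) (p := orderOf g) (by
      intro x
      have h1 : ∀ n : ℕ, (ρ g)^[n] x = ρ (g ^ n) x := by
        intro n
        induction n with
        | zero => rw [pow_zero, map_one]; rfl
        | succ n ih => rw [Function.iterate_succ_apply', ih, pow_succ', map_mul]; rfl
      rw [h1, pow_orderOf_eq_one, map_one]
      rfl) (lo_le hAW) (ic_lo hAW) hreg hFg (by
        obtain ⟨k, hk⟩ := hgo
        rw [hk, Nat.cast_mul] at hu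
        exact isUnit_of_mul_isUnit_left hu)
    exact rg_of_gd hst hAW hFg hG

theorem BW_reg5 [IsNoetherianRing O] [hft : Algebra.FiniteType O A]
    (hfaith : ∀ g, (∀ a ∈ A, ρ g a = a) → g = 1)
    (hloc : ∀ W : ValuationSubring K, A.toSubring ≤ W.toSubring →
      ∃ T : ℕ → Prop, Lq W 𝔞 (AJ hst (ex T)) ∧ PT5 hst T W)
    (w : A) (hw : w ∈ 𝔞) (hw0 : (w : K) ≠ 0) : IsRegularRing (BW 𝔞 w) := by
  refine BW_regular w fun W hBW => ?_
  have hAW : A.toSubring ≤ W.toSubring := fun a ha => hBW (BW_A w ha)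
  obtain ⟨T, ⟨u, hu0, huW, h1, h2⟩, hT⟩ := hloc W hAW
  obtain ⟨h3, h4⟩ := blow_local hAW hu0 huW h1 h2 hw hw0 hBW
  rw [h4]
  have hN : IsNoetherianRing A := Algebra.FiniteType.isNoetherianRing O A
  exact BW_pt5 hst hfaith hAW hT (u * w) (h1 w hw) (mul_ne_zero hu0 hw0) h3

/-- The quotient is regular outside of the vertex. -/
theorem ch_res5 [IsNoetherianRing O] [hft : Algebra.FiniteType O A] {K' : Type} [Field K']
    [Algebra O K'] (ι : K' →ₐ[O] K) (hfix : ∀ x, (∀ g, ρ g x = x) ↔ ∃ y, ι y = x)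
    (hfaith : ∀ g, (∀ a ∈ A, ρ g a = a) → g = 1) (hne : 𝔞 ≠ ⊥)
    (hact : ∀ x ∈ 𝔞, ∀ g, act hst g x ∈ 𝔞)
    (hloc : ∀ W : ValuationSubring K, A.toSubring ≤ W.toSubring →
      ∃ T : ℕ → Prop, Lq W 𝔞 (AJ hst (ex T)) ∧ PT5 hst T W) :
    Ch (res ι (RI 𝔞)) := by
  classical
  have hN : IsNoetherianRing A := Algebra.FiniteType.isNoetherianRing O A
  obtain ⟨w₀, hw₀, hw₀0⟩ := Submodule.exists_mem_ne_zero_of_ne_bot hne
  have hw₀K : (w₀ : K) ≠ 0 := fun h => hw₀0 (Subtype.ext h)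
  have hCh : Ch (RI 𝔞) :=
    { ft := ft_RI
      gr := gr_RI
      ss := s_RI
      cf := fun d x hx => by
        obtain ⟨b, -, rfl⟩ := of_hm_RI hx
        exact b_RI b
      pos := ⟨1, (w₀ : K), one_pos, hw₀K, hm_one_RI hw₀⟩
      rg := fun e η he h0 hη => rg_RI (BW_reg5 hst hfaith hloc) e η he h0 hη }
  have hstR : ∀ g, ∀ f ∈ RI 𝔞, tl (ρ g) f ∈ RI 𝔞 := by
    intro g
    refine RI_induction ?_ ?_ ?_ ?_ ?_
    · intro b
      rw [tlhm]
      exact b_RI (act hst g b)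
    · rw [tlhm, map_one]
      exact s_RI
    · intro a ha
      rw [tlhm]
      exact hm_one_RI (hact a ha g)
    · intro f _ f' _ hf hf'
      rw [map_add]
      exact Subalgebra.add_mem _ hf hf'
    · intro f _ f' _ hf hf'
      rw [map_mul]
      exact Subalgebra.mul_mem _ hf hf'
  refine Pool.Agent.Y279.G.t_STEPG Pool.Agent.Y824.G4.t_DESCG O K K' ι G ρ hfix
    (RI 𝔞) hCh hstR ?_ ?_
  · intro g hg
    apply hfaith
    intro a ha
    have h1 := hg _ (b_RI (𝔞 := 𝔞) ⟨a, ha⟩)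
    rw [tlhm] at h1
    exact hm_inj h1
  · rintro Q hQ ⟨e, η, he, h0, heQ⟩
    obtain ⟨w, hw, hwQ⟩ := exists_deg_one Q hQ he h0 heQ
    obtain ⟨W, hBW, hW0, hW1⟩ := exists_W Q hQ hw hwQ
    have hAW : A.toSubring ≤ W.toSubring := fun a ha => hBW (BW_A w ha)
    have hw0 : (w : K) ≠ 0 := by
      intro h
      apply hwQ
      have e : (⟨hm 1 (w : K), hm_one_RI hw⟩ : RI 𝔞) = 0 := by
        apply Subtype.ext
        change hm 1 (w : K) = 0
        rw [h, hm_zero]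
      rw [e]
      exact Q.zero_mem
    have hin : ∀ g, (∀ f ∈ RI 𝔞, ∃ h : tl (ρ g) f - f ∈ RI 𝔞,
        (⟨tl (ρ g) f - f, h⟩ : RI 𝔞) ∈ Q) →
        Fx (ρ g) W (lo W.toSubring A.toSubring) := by
      intro g hg
      refine fx_of_le hst hAW ?_
      unfold fixI
      rw [Ideal.span_le]
      rintro _ ⟨a, rfl⟩
      obtain ⟨h1, h2⟩ := hg _ (b_RI a)
      have e1 : (⟨_, h1⟩ : RI 𝔞) = ⟨_, b_RI (act hst g a - a)⟩ := by
        apply Subtype.ext
        change tl (ρ g) (hm 0 (a : K)) - hm 0 (a : K) = hm 0 (ρ g a - a)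
        rw [tlhm, ← hm_sub]
      rw [e1] at h2
      exact (hW0 _).1 h2
    obtain ⟨T, ⟨μ, hμ0, hμW, hμ1, hμ2⟩, hlocW⟩ := hloc W hAW
    obtain ⟨hreg, h⟩ | ⟨p, τ, hp, hpT, hτ, hI, -, hF, hsc⟩ | ⟨hreg, σ, hI, hu, hT⟩ := hlocW
    · exact Or.inl fun g hg => h g (hin g hg)
    · have hτ1 : τ ≠ 1 := by
        rintro rfl
        rw [orderOf_one] at hτ
        exact hp.one_lt.ne hτ
      have hτp : τ ^ p = 1 := by rw [← hτ, pow_orderOf_eq_one]
      refine Or.inr ⟨p, τ, hp, hτp, fun g hg => hI g (hin g hg), ?_⟩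
      obtain ⟨v, hv, hvq⟩ := PI_not_le hst (ex T) (s := cy τ) (ctr hAW) (ctr_prime hAW)
        fun g hg => by
          by_cases hg1 : g = 1
          · exact Or.inl hg1
          · exact Or.inr (mem_cy.2 ⟨hI g (fx_of_le hst hAW hg), hg1⟩)
      obtain ⟨hv0, hvW⟩ := unit_of_not_ctr hAW hvq
      have hAI := AJ_split hst (ex T) (cy τ) (cy_sub τ)
      rw [PI_const hst (ex T) (s := cy τ) (I := fixI hst τ) fun g hg =>
        fixI_eq hst hp hτp hτ1 (mem_cy.1 hg).1 (mem_cy.1 hg).2] at hAI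
      have hm1 : 1 ≤ ∑ g ∈ cy τ, ex T g := by
        calc 1 ≤ ex T τ := ex_pos T τ
          _ ≤ ∑ g ∈ cy τ, ex T g := Finset.single_le_sum (f := ex T) (fun _ _ => Nat.zero_le _)
            (mem_cy.2 ⟨Subgroup.mem_zpowers τ, hτ1⟩)
      have hpm : p ∣ ∑ g ∈ cy τ, ex T g := by
        refine Finset.dvd_sum fun g hg => ?_
        have h3 : orderOf g ∣ p := hτ ▸ orderOf_dvd_of_mem_zpowers (mem_cy.1 hg).1
        rcases (Nat.dvd_prime hp).1 h3 with h4 | h4
        · exact absurd (orderOf_eq_one_iff.1 h4) (mem_cy.1 hg).2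
        · exact ex_wild T hpT h4
      rw [hAI] at hμ1 hμ2
      exact fix_cond2 hst hμ0 hμW hμ1 hμ2 (fun x hx => hact x hx τ) hm1 hpm hv hv0 hvW hQ hw hwQ
        hBW hW0 hW1 hp hτp hτ1 (fixI_ne_bot hst hfaith hτ1) hF hsc
    · -- tame
      left
      intro g₀ hg₀
      by_contra hg₀1
      have hg₀σ : g₀ ∈ Subgroup.zpowers σ := (hI g₀).1 (hin g₀ hg₀)
      have ho1 : orderOf g₀ ≠ 1 := fun h => hg₀1 (orderOf_eq_one_iff.1 h)
      have hl : (orderOf g₀).minFac.Prime := Nat.minFac_prime ho1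
      have hldvd : (orderOf g₀).minFac ∣ orderOf g₀ := Nat.minFac_dvd _
      obtain ⟨l, hldef⟩ : ∃ l, l = (orderOf g₀).minFac := ⟨_, rfl⟩
      rw [← hldef] at hl hldvd
      obtain ⟨τ, hτdef⟩ : ∃ τ, τ = g₀ ^ (orderOf g₀ / l) := ⟨_, rfl⟩
      have hτo : orderOf τ = l := by
        rw [hτdef]
        exact orderOf_pow_orderOf_div (orderOf_pos g₀).ne' hldvd
      have hτσ : τ ∈ Subgroup.zpowers σ := by
        rw [hτdef]
        exact Subgroup.pow_mem _ hg₀σ _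
      have hpow : ∀ n : ℕ, ∀ f ∈ RI 𝔞,
          ∃ h : tl (ρ (g₀ ^ n)) f - f ∈ RI 𝔞,
            (⟨tl (ρ (g₀ ^ n)) f - f, h⟩ : RI 𝔞) ∈ Q := by
        intro n
        induction n with
        | zero =>
          intro f hf
          have e1 : tl (ρ (g₀ ^ 0)) f - f = 0 := by
            have h1 : tl (ρ (g₀ ^ 0)) f = f := by
              rw [pow_zero, map_one]
              have h2 : ∀ f : LP K, tl (1 : K ≃ₐ[O] K) f = f := by
                intro f
                rw [eq_sum_hm f, map_sum]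
                refine Finset.sum_congr rfl fun i _ => ?_
                rw [tlhm]
                rfl
              exact h2 f
            rw [h1, sub_self]
          refine ⟨by rw [e1]; exact Subalgebra.zero_mem _, ?_⟩
          have e2 : (⟨tl (ρ (g₀ ^ 0)) f - f, by rw [e1]; exact Subalgebra.zero_mem _⟩ :
              RI 𝔞) = 0 := Subtype.ext e1
          rw [e2]
          exact Q.zero_mem
        | succ n ih =>
          intro f hf
          obtain ⟨h1, h2⟩ := ih f hf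
          obtain ⟨h3, h4⟩ := hg₀ _ (hstR (g₀ ^ n) f hf)
          have e1 : tl (ρ (g₀ ^ (n + 1))) f - f =
              (tl (ρ g₀) (tl (ρ (g₀ ^ n)) f) - tl (ρ (g₀ ^ n)) f) + (tl (ρ (g₀ ^ n)) f - f) := by
            have h5 : tl (ρ (g₀ ^ (n + 1))) f = tl (ρ g₀) (tl (ρ (g₀ ^ n)) f) := by
              have h6 : ∀ f : LP K, tl (ρ (g₀ ^ (n + 1))) f = tl (ρ g₀) (tl (ρ (g₀ ^ n)) f) := by
                intro f
                rw [eq_sum_hm f, map_sum, map_sum, map_sum]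
                refine Finset.sum_congr rfl fun i _ => ?_
                rw [tlhm, tlhm, tlhm, pow_succ', map_mul]
                rfl
              exact h6 f
            rw [h5]
            ring
          refine ⟨by rw [e1]; exact Subalgebra.add_mem _ h3 h1, ?_⟩
          have e2 : (⟨tl (ρ (g₀ ^ (n + 1))) f - f, by rw [e1]; exact Subalgebra.add_mem _ h3 h1⟩ :
              RI 𝔞) = ⟨_, h3⟩ + ⟨_, h1⟩ := Subtype.ext e1
          rw [e2]
          exact Q.add_mem h4 h2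
      have hτin : ∀ f ∈ RI 𝔞, ∃ h : tl (ρ τ) f - f ∈ RI 𝔞,
          (⟨tl (ρ τ) f - f, h⟩ : RI 𝔞) ∈ Q := by
        rw [hτdef]
        exact hpow _
      have hin0 : ∀ a : A, W.valuation ((act hst τ a - a : A) : K) < 1 := by
        intro a
        obtain ⟨h1, h2⟩ := hτin _ (b_RI a)
        have e1 : (⟨_, h1⟩ : RI 𝔞) = ⟨_, b_RI (act hst τ a - a)⟩ := by
          apply Subtype.ext
          change tl (ρ τ) (hm 0 (a : K)) - hm 0 (a : K) = hm 0 (ρ τ a - a)
          rw [tlhm, ← hm_sub]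
        rw [e1] at h2
        exact (hW0 _).1 h2
      have hFτ : Fx (ρ τ) W (lo W.toSubring A.toSubring) := hin τ hτin
      obtain ⟨hτμ0, hτμW⟩ := unit_of_sub (hAW μ.2) hμ0 hμW (hAW (hst τ _ μ.2))
        (hFτ _ (le_lo _ _ μ.2)).2
      have hldvdσ : l ∣ orderOf σ := hldvd.trans (orderOf_dvd_of_mem_zpowers hg₀σ)
      have hlu : IsUnit ((l : ℕ) : lo W.toSubring A.toSubring) := by
        obtain ⟨k, hk⟩ := hldvdσ
        rw [hk, Nat.cast_mul] at hu
        exact isUnit_of_mul_isUnit_left hu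
      obtain ⟨v', hv'⟩ := isUnit_iff_exists_inv.1 hlu
      have hv'' : (l : K) * v' = 1 := by
        have h1 := congrArg Subtype.val hv'
        push_cast at h1
        exact h1
      have hl0 : (l : K) ≠ 0 := left_ne_zero_of_mul_eq_one hv''
      have hlW : ((l : K))⁻¹ ∈ W := by
        have h5 : (l : K)⁻¹ = v' := by
          rw [← mul_one (l : K)⁻¹, ← hv'', ← mul_assoc, inv_mul_cancel₀ hl0, one_mul]
        rw [h5]
        exact lo_le hAW v'.2
      obtain ⟨v, hv, hvq⟩ := PI_not_le hst (ex T) (s := cy σ) (ctr hAW) (ctr_prime hAW)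
        fun g hg => by
          by_cases hg1 : g = 1
          · exact Or.inl hg1
          · exact Or.inr (mem_cy.2 ⟨(hI g).1 (fx_of_le hst hAW hg), hg1⟩)
      obtain ⟨hv0, hvW⟩ := unit_of_not_ctr hAW hvq
      have hAI := AJ_split hst (ex T) (cy σ) (cy_sub σ)
      obtain ⟨hB3, -⟩ := blow_local hAW hμ0 hμW hμ1 hμ2 hw hw0 hBW
      have hcommσ : ∀ g ∈ Subgroup.zpowers σ, ∀ h ∈ Subgroup.zpowers σ, g * h = h * g := by
        rintro _ ⟨i, rfl⟩ _ ⟨j, rfl⟩
        change σ ^ i * σ ^ j = σ ^ j * σ ^ i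
        rw [← zpow_add, ← zpow_add, add_comm]
      refine tame_free hst hAW (s := cy σ) (e := ex T) hl hτo hlW hl0
        (fun g hg => fixI_ne_bot hst hfaith (mem_cy.1 hg).2)
        (fun g hg => hcommσ τ hτσ g (mem_cy.1 hg).1) ?_ (fun g _ => ex_pos T g) ?_ ?_ hv hv0 hvW
        (fun h => (mem_cy.1 h).2 rfl) (w := μ * w) ?_ (mul_ne_zero hμ0 hw0) ?_ ?_ ?_
      · intro g hg hg1
        refine mem_cy.2 ⟨?_, hg1⟩
        have h1 : Subgroup.zpowers τ ≤ Subgroup.zpowers σ := by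
          rw [Subgroup.zpowers_le]
          exact hτσ
        exact h1 hg
      · intro g hg hgτ
        refine ex_dvd T hl (hldvdσ.trans (orderOf_dvd_natCard σ)) fun hgo => hgτ ?_
        exact cyc_unique hl (mem_cy.1 hg).1 hτσ hgo hτo
      · intro r hr
        have h1 := ex_sum T hl (hT l hl hldvdσ) hτo
        have h2 : r = Finset.univ.filter (fun g : G => g ∈ Subgroup.zpowers τ ∧ g ≠ 1) := by
          ext g
          rw [hr, Finset.mem_filter]
          exact ⟨fun h => ⟨Finset.mem_univ _, h⟩, fun h => h.2⟩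
        rw [h2]
        exact h1
      · rw [← hAI]
        exact hμ1 w hw
      · rw [← hAI]
        exact hB3
      · exact hin0
      · intro b hb
        rw [← hAI] at hb
        have hub : μ * b ∈ 𝔞 := hμ2 b hb
        have hub' := hact _ hub τ
        have hmem : act hst τ (μ * b) - μ * b ∈ 𝔞 := Ideal.sub_mem _ hub' hub
        obtain ⟨h1, h2⟩ := hτin _ (hm_one_RI hub)
        have e1 : (⟨_, h1⟩ : RI 𝔞) = ⟨_, hm_one_RI hmem⟩ := by
          apply Subtype.ext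
          change tl (ρ τ) (hm 1 ((μ : K) * (b : K))) - hm 1 ((μ : K) * (b : K)) =
            hm 1 (ρ τ ((μ : K) * (b : K)) - (μ : K) * (b : K))
          rw [tlhm, ← hm_sub]
        rw [e1] at h2
        have h3 := hW1 _ hmem h2
        have h4 : (b : K) / ((μ * w : A) : K) ∈ W := hB3 (BW_div _ hb)
        have h5 : W.valuation (ρ τ (μ : K) - (μ : K)) < 1 := hin0 μ
        have e2 : ((act hst τ b - b : A) : K) / ((μ * w : A) : K) =
            ((act hst τ (μ * b) - μ * b : A) : K) / w * ((ρ τ (μ : K))⁻¹ * (μ : K)⁻¹) -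
              (ρ τ (μ : K) - (μ : K)) * ((b : K) / ((μ * w : A) : K) * (ρ τ (μ : K))⁻¹) := by
          change (ρ τ (b : K) - b) / ((μ : K) * w) =
            (ρ τ ((μ : K) * b) - (μ : K) * b) / w * ((ρ τ (μ : K))⁻¹ * (μ : K)⁻¹) -
              (ρ τ (μ : K) - (μ : K)) * ((b : K) / ((μ : K) * w) * (ρ τ (μ : K))⁻¹)
          rw [map_mul]
          field_simp
          ring
        rw [e2]
        refine (Valuation.map_sub _ _ _).trans_lt (max_lt ?_ ?_)
        · rw [map_mul]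
          exact mul_lt_one_of_lt_of_le h3
            ((W.valuation_le_one_iff _).2 (W.mul_mem _ _ hτμW hμW))
        · rw [map_mul]
          exact mul_lt_one_of_lt_of_le h5
            ((W.valuation_le_one_iff _).2 (W.mul_mem _ _ h4 hτμW))

end fin

end Pool.Agent.N864.GT
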