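import Pool.Agent.N864.GT.Pts7
import Pool.Agent.N864.GR.Num3

/-!
# Models over number rings; the scheme can be singular at the points with wild inertia
-/

set_option autoImplicit false
set_option linter.unusedSectionVars false
set_option linter.unusedVariables false

open scoped Pointwise

namespace Pool.Agent.N864.GTN

open IsLocalRing Pool.Agent.TH188.QS Pool.Agent.TH188.ARC Pool.Agent.W418.LU2
  Pool.Agent.Y223.G Pool.Agent.Y223.INV Pool.Agent.N864.GQ Pool.Agent.N864.GR Pool.Agent.N864.GS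
open Pool.Agent.Y25.G (MN_mul MN_one MN_zero MN_z MN_succ MN_pow_z FS_pow FS_mul FS_one)
open Pool.Agent.Y232.G6 (Ph Ph_hm mem_res)
open Pool.Agent.N864.GT (PT5 Wild5 fx_iff' exists_centre regular_lo fixedIdeal_eq chart_local
  ch_res5)

section

variable {O K G : Type} [CommRing O] [Field K] [Algebra O K] [Group G]

/-- The conditions on the inertia group. -/
def InertiaCondition6 (ρ : G →* (K ≃ₐ[O] K)) (R : Subring K) : Prop :=
  (IsRegularLocalRing R ∧ ∀ g, IsFixed (ρ g) R → g = 1) ∨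
    ((∃ s : O, s ≠ 0 ∧ ∃ y : R, (y : K) = algebraMap O K s ∧ ¬ IsUnit y) ∧
      ∃ τ : G, (∀ g, IsFixed (ρ g) R ↔ g ∈ Subgroup.zpowers τ) ∧
        ((IsRegularLocalRing R ∧ IsUnit ((orderOf τ : ℕ) : R)) ∨
          ((orderOf τ).Prime ∧ ¬ IsUnit ((orderOf τ : ℕ) : R) ∧ Wild5 (orderOf τ) (ρ τ) R)))

variable {ρ : G →* (K ≃ₐ[O] K)} {A : Subalgebra O K} {W : ValuationSubring K} {Q : Subring K}
  (hst : ∀ g, ∀ a ∈ A, ρ g a ∈ A)

/-- The conditions at the points. -/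
theorem pt_of6 [Fintype G] (hAW : A.toSubring ≤ W.toSubring)
    (h : InertiaCondition6 ρ (lo W.toSubring A.toSubring)) : PT5 hst (TW W) W := by
  classical
  have hQW : lo W.toSubring A.toSubring ≤ W.toSubring := lo_le hAW
  have hIC : IC W.toSubring (lo W.toSubring A.toSubring) := ic_lo hAW
  have hloc : IsLocalRing (lo W.toSubring A.toSubring) := isLocalRing_lo (loc_V W) hAW
  have hmax : ∀ y : lo W.toSubring A.toSubring, y ∈ maximalIdeal (lo W.toSubring A.toSubring) ↔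
    NU W.toSubring (y : K) := mem_max_iff hQW hIC
  have hfx : ∀ g, Fx (ρ g) W (lo W.toSubring A.toSubring) ↔
      IsFixed (ρ g) (lo W.toSubring A.toSubring) := fun g => fx_iff' hQW hIC hloc (ρ g)
  have hnat : ∀ l : ℕ, IsUnit ((l : ℕ) : lo W.toSubring A.toSubring) ↔ TW W l := by
    intro l
    have h1 := hmax ((l : ℕ) : lo W.toSubring A.toSubring)
    rw [mem_maximalIdeal, mem_nonunits_iff] at h1
    have h2 : (((l : ℕ) : lo W.toSubring A.toSubring) : K) = (l : K) := by push_cast; rfl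
    rw [h2] at h1
    unfold TW
    rw [← h1, not_not]
  obtain ⟨hreg, h⟩ | ⟨-, τ, hI, ⟨hreg, hu⟩ | ⟨hp, hnu, hG⟩⟩ := h
  · exact Or.inl ⟨hreg, fun g hg => h g ((hfx g).1 hg)⟩
  · refine Or.inr (Or.inr ⟨hreg, τ, fun g => (hfx g).trans (hI g), hu, fun l _ hl =>
      (hnat l).1 ?_⟩)
    obtain ⟨k, hk⟩ := hl
    rw [hk, Nat.cast_mul] at hu
    exact isUnit_of_mul_isUnit_left hu
  · obtain ⟨p, hτ⟩ : ∃ p, orderOf τ = p := ⟨_, rfl⟩
    rw [hτ] at hp hnu hG
    have hτp : τ ^ p = 1 := by rw [← hτ, pow_orderOf_eq_one]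
    have hF : Fx (ρ τ) W (lo W.toSubring A.toSubring) :=
      (hfx τ).2 ((hI τ).2 (Subgroup.mem_zpowers τ))
    have h22 : p = 2 → ∀ x, ρ τ (ρ τ x) = x := by
      intro h2 x
      rw [h2] at hτp
      rw [← AlgEquiv.mul_apply, ← map_mul, ← pow_two, hτp, map_one]
      rfl
    have hsc2 : p = 2 → ∃ u, ∀ x ∈ fixR (qact hF), qact hF x - u * x ∈ fixR (qact hF) ^ 2 :=
      fun h2 => ⟨-1, sc_two fun x => Subtype.ext (h22 h2 x)⟩
    have hsc : ActsByScalar (ρ τ) (lo W.toSubring A.toSubring) →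
        ∃ u, ∀ x ∈ fixR (qact hF), qact hF x - u * x ∈ fixR (qact hF) ^ 2 := by
      rintro ⟨u, hu⟩
      rw [fixedIdeal_eq hF] at hu
      exact ⟨u, fun x hx => hu x hx _ rfl⟩
    refine Or.inr (Or.inl ⟨p, τ, hp, fun h => hnu ((hnat p).2 h), hτ,
      fun g hg => (hI g).1 ((hfx g).1 hg), ?_, hF, ?_⟩)
    · intro y hy hy0 hBW
      rcases hG with ⟨hreg, -⟩ | ⟨hreg, t, δ, ht0, hδ, hJ⟩
      · obtain ⟨h1, h2⟩ := chart_local hst hAW hF hy hy0 hBW
        rw [← h2]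
        refine regular_lo h1 (hreg _ ?_ fun h => hy0 (congrArg Subtype.val h))
        rw [fixedIdeal_eq hF]
        have h3 := fixI_pow_mem hst hF 1 y (by rwa [pow_one])
        rwa [pow_one] at h3
      · obtain ⟨t', c, z, hGd⟩ := gd_of_regular hQW hIC hreg
          ⟨t, δ, ht0, hδ, hJ.imp id And.left⟩
        have e : fixI hst τ = fixI hst τ ^ 1 * ⊤ := by rw [pow_one, Ideal.mul_top]
        have h1 : (1 : A) ∈ (⊤ : Ideal A) := trivial
        rw [e] at hy hBW ⊢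
        refine blow_centre hst hAW hF hGd le_rfl h1 one_ne_zero ?_ hy hy0 hBW
        rw [OneMemClass.coe_one, inv_one]
        exact W.one_mem
    · rcases hG with ⟨-, h2⟩ | ⟨hreg, t, δ, ht0, hδ, hJ | ⟨hJ, h2⟩⟩
      · exact h2.elim hsc2 hsc
      · exact sc_top (t := t) (δ := δ) (fun x => Subtype.ext (hδ x)) hJ
      · exact h2.elim hsc2 hsc

end

section

variable {O K G : Type} [CommRing O] [Field K] [Algebra O K] [Group G]
  {ρ : G →* (K ≃ₐ[O] K)} {m : ℕ} {z : Fin (m + 1) → K} {d : ℕ} {Φ : K}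

lemma ve_of6 [Fintype G] [IsDomain O] (hinj : Function.Injective (algebraMap O K))
    (hst : ∀ g, ∀ a ∈ AF O z d Φ, ρ g a ∈ AF O z d Φ) (hz : ∀ j, z j ≠ 0) (hΦ0 : Φ ≠ 0)
    (hΦ : Φ ∈ FS O z d) (hd : 1 ≤ d)
    (hpt : ∀ (W : ValuationSubring K) j, CC O z j ≤ W.toSubring →
      (∀ s : O, s ≠ 0 → ¬ NU W.toSubring (algebraMap O K s)) →
      ∀ g, Fx (ρ g) W (lo W.toSubring (CC O z j)) → g = 1) (N : ℕ) :
    ∃ s : O, s ≠ 0 ∧ ∀ g ∈ NT G, algebraMap O (AF O z d Φ) s ∈ fixI hst g ^ N := by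
  classical
  have hmain : ∃ s : O, s ≠ 0 ∧ algebraMap O (AF O z d Φ) s ∈ AJ hst (fun _ => N) := by
    by_contra hcon
    push Not at hcon
    let S : Submonoid (AF O z d Φ) := (nonZeroDivisors O).map (algebraMap O (AF O z d Φ))
    have hdis : Disjoint (AJ hst (fun _ => N) : Set (AF O z d Φ)) (S : Set (AF O z d Φ)) := by
      rw [Set.disjoint_left]
      rintro _ h1 ⟨s, hs, rfl⟩
      exact hcon s (nonZeroDivisors.ne_zero hs) h1
    obtain ⟨q, hq, hle, hqd⟩ := Ideal.exists_le_prime_disjoint _ S hdis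
    obtain ⟨W, hAW, hW⟩ := Pool.Agent.Y223.CC.exists_val (AF O z d Φ).toSubring q
    have hctr : ctr hAW = q := by
      ext a
      exact (hW a).symm
    obtain ⟨j, hCW, hlo⟩ := lo_AF hz hΦ0 hΦ hd hAW
    have h2 := hpt W j hCW
    have h3 : ∀ s : O, s ≠ 0 → ¬ NU W.toSubring (algebraMap O K s) := by
      intro s hs h
      have h4 : algebraMap O (AF O z d Φ) s ∈ q := by
        rw [← hctr]
        exact (nu_iff (hAW (Subalgebra.algebraMap_mem _ s))).1 h
      rw [Set.disjoint_left] at hqd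
      exact hqd h4 ⟨s, mem_nonZeroDivisors_of_ne_zero hs, rfl⟩
    obtain ⟨v, hv, hvq⟩ := PI_not_le hst (fun _ => N) (s := ∅) q hq fun g hg => by
      refine Or.inl (h2 h3 g ?_)
      change Fx (ρ g) W
        (lo W.toSubring (Algebra.adjoin O (Set.range fun i => z i / z j)).toSubring)
      rw [← hlo]
      exact fx_of_le hst hAW (hctr ▸ hg)
    rw [Finset.sdiff_empty] at hv
    exact hvq (hle hv)
  obtain ⟨s, hs, hs'⟩ := hmain
  refine ⟨s, hs, fun g hg => ?_⟩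
  unfold AJ Pool.Agent.N864.GR.PI at hs'
  rw [← Finset.mul_prod_erase _ _ hg] at hs'
  exact Ideal.mul_le_left hs'

end

/-- The inertia groups are trivial on the generic fibre. -/
lemma triv6 {O K G : Type} [CommRing O] [Field K] [Algebra O K] [Group G]
    {ρ : G →* (K ≃ₐ[O] K)} {m : ℕ} {z : Fin (m + 1) → K}
    (hpt : ∀ j (𝔮 : Ideal (CC O z j)) [𝔮.IsPrime],
      InertiaCondition6 ρ (LocalSubring.ofPrime (CC O z j) 𝔮).toSubring)
    (W : ValuationSubring K) (j : Fin (m + 1)) (hCW : CC O z j ≤ W.toSubring)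
    (h : ∀ s : O, s ≠ 0 → ¬ NU W.toSubring (algebraMap O K s)) (g : G)
    (hg : Fx (ρ g) W (lo W.toSubring (CC O z j))) : g = 1 := by
  have hQW : lo W.toSubring (CC O z j) ≤ W.toSubring := lo_le hCW
  have hIC : IC W.toSubring (lo W.toSubring (CC O z j)) := ic_lo hCW
  have hloc : IsLocalRing (lo W.toSubring (CC O z j)) := isLocalRing_lo (loc_V W) hCW
  have hmax : ∀ y : lo W.toSubring (CC O z j), y ∈ maximalIdeal (lo W.toSubring (CC O z j)) ↔
    NU W.toSubring (y : K) := mem_max_iff hQW hIC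
  obtain ⟨P, hP, hR⟩ := exists_centre hCW
  have h1 := @hpt j P hP
  rw [hR] at h1
  rcases h1 with ⟨-, h1⟩ | ⟨⟨s, hs, y, hy, hyu⟩, -⟩
  · exact h1 g ((fx_iff' hQW hIC hloc (ρ g)).1 hg)
  · exact absurd ((hmax y).1 ((mem_maximalIdeal _).2 hyu)) (hy ▸ h s hs)

/-- The module of the quotient. -/
theorem gq_module6 {O F K G : Type} [CommRing O] [IsDomain O] [IsNoetherianRing O] [Field F]
    [Field K] [Algebra O F] [Algebra O K] [Algebra F K] [IsScalarTower O F K] [Group G] [Finite G]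
    (hinj : Function.Injective (algebraMap O K))
    (hO : ∀ s : O, s ≠ 0 → ∃ M : ℕ, 1 ≤ M ∧ ∀ n : ℕ, ∃ c : O,
      (n : O) ^ M * (1 - (n : O) ^ M) = s * c) (ρ : G →* (K ≃ₐ[O] K))
    (hfix : ∀ x, (∀ g, ρ g x = x) ↔ ∃ f : F, algebraMap F K f = x)
    (hρ : Function.Injective ρ) {m : ℕ} (z : Fin (m + 1) → K) (hz : ∀ j, z j ≠ 0)
    (hfr : ∀ S : Subfield K, (∀ o : O, algebraMap O K o ∈ S) → (∀ i j, z i / z j ∈ S) → S = ⊤)
    (hlin : ∀ g j, ρ g (z j) ∈ Submodule.span O (Set.range z))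
    (hpt : ∀ j (𝔮 : Ideal (CC O z j)) [𝔮.IsPrime],
      InertiaCondition6 ρ (LocalSubring.ofPrime (CC O z j) 𝔮).toSubring)
    (M₀ : Submodule O F) (hM₀ : M₀.FG) (c k₀ : ℕ) (hc : 1 ≤ c)
    (hM : ∀ k, k₀ ≤ k → ∀ f : F, algebraMap F K f ∈ sat (FS O z (c * k)) ↔ f ∈ sat (M₀ ^ k)) :
    ∃ M' : Submodule O F, M'.FG ∧ (∃ f ∈ M', f ≠ 0) ∧
      (∀ f ∈ M', f ≠ 0 → ∀ y : F, ∃ b ∈ Pool.Agent.H918R2.Quad.chart O M' f,
        ∃ c ∈ Pool.Agent.H918R2.Quad.chart O M' f, c ≠ 0 ∧ y = b / c) ∧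
      (∀ f ∈ M', f ≠ 0 → ∀ (q : Ideal (Pool.Agent.H918R2.Quad.chart O M' f)) [q.IsPrime],
        IsRegularLocalRing (Localization.AtPrime q)) ∧
      ∃ n : ℕ, 1 ≤ n ∧ (∀ y ∈ M', y ∈ sat (M₀ ^ n)) ∧
        ∀ y : F, y ∈ M₀ ^ n → ∃ s : O, s ≠ 0 ∧ s • y ∈ M' := by
  classical
  let _ : Fintype G := Fintype.ofFinite G
  let ι : F →ₐ[O] K := IsScalarTower.toAlgHom O F K
  have hinjF : Function.Injective (algebraMap O F) := by
    intro a b hab
    apply hinj
    rw [IsScalarTower.algebraMap_apply O F K, IsScalarTower.algebraMap_apply O F K, hab]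
  obtain ⟨n₁, S, hn₁, hSfin, hS, hval⟩ := exists_forms ρ z ι hz hlin (c * (k₀ + 1))
    (Nat.one_le_iff_ne_zero.2 (Nat.mul_ne_zero (by omega) (by omega)))
  obtain ⟨n, hn⟩ : ∃ n, n = n₁ * (k₀ + 1) := ⟨_, rfl⟩
  obtain ⟨d, hd⟩ : ∃ d, d = n₁ * (c * (k₀ + 1)) := ⟨_, rfl⟩
  have hdn : d = c * n := by rw [hd, hn]; ring
  rw [← hd] at hS hval
  have hn1 : 1 ≤ n := by
    rw [hn]
    exact Nat.one_le_iff_ne_zero.2 (Nat.mul_ne_zero (by omega) (by omega))
  have hnk : k₀ ≤ n := by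
    rw [hn]
    calc k₀ ≤ 1 * (k₀ + 1) := by omega
      _ ≤ n₁ * (k₀ + 1) := Nat.mul_le_mul_right _ hn₁
  have hd1 : 1 ≤ d := by
    rw [hdn]
    exact Nat.one_le_iff_ne_zero.2 (Nat.mul_ne_zero (by omega) (by omega))
  have hfinS : Finite S := hSfin
  have hst : ∀ a : S, ∀ g, ∀ x ∈ AF O z d a, ρ g x ∈ AF O z d a := fun a g =>
    AF_act hlin (hS a a.2).2.2 g
  have hex : ∀ a : S, ∃ y : F, ι y = a := fun a => (hfix _).1 fun g => (hS a a.2).2.2 g
  choose h hh using hex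
  have hh0 : ∀ a, h a ≠ 0 := by
    intro a h0
    have h1 := hh a
    rw [h0, map_zero] at h1
    exact (hS a a.2).2.1 h1.symm
  -- the exponents
  let _ : Fintype S := Fintype.ofFinite S
  have hexs : ∀ a : S, ∃ s : O, s ≠ 0 ∧
      ∀ g ∈ NT G, algebraMap O (AF O z d a) s ∈ fixI (hst a) g ^ Nat.card G := fun a =>
    ve_of6 hinj (hst a) hz (hS a a.2).2.1 (hS a a.2).1 hd1 (fun W j h => triv6 hpt W j h) _
  choose s₁ hs₁0 hs₁ using hexs
  obtain ⟨s₀, hs₀def⟩ : ∃ s₀ : O, s₀ = ∏ a : S, s₁ a := ⟨_, rfl⟩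
  have hs₀0 : s₀ ≠ 0 := by
    rw [hs₀def]
    exact Finset.prod_ne_zero_iff.2 fun a _ => hs₁0 a
  have hs₀ : ∀ a : S, ∀ g ∈ NT G, algebraMap O (AF O z d a) s₀ ∈ fixI (hst a) g ^ Nat.card G := by
    intro a g hg
    rw [hs₀def, ← Finset.mul_prod_erase Finset.univ s₁ (Finset.mem_univ a), map_mul]
    exact Ideal.mul_mem_right _ _ (hs₁ a g hg)
  obtain ⟨M, hM1, hMs⟩ := hO s₀ hs₀0
  have hsM : ∀ a : S, ∀ n : ℕ, ∃ c : AF O z d a,
      (n : AF O z d a) ^ M * (1 - (n : AF O z d a) ^ M) = algebraMap O (AF O z d a) s₀ * c := by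
    intro a n
    obtain ⟨c, hc⟩ := hMs n
    refine ⟨algebraMap O _ c, ?_⟩
    rw [← map_mul, ← hc, map_mul, map_sub, map_pow, map_one, map_natCast]
  obtain ⟨R, hR⟩ : ∃ R : S → Subalgebra O (LP F), R = fun a => res ι (RI (AK (hst a) M)) :=
    ⟨_, rfl⟩
  have hmemR : ∀ (a : S) (y : F), hm 0 y ∈ R a ↔ ι y ∈ AF O z d a := by
    intro a y
    rw [hR, mem_res, Ph_hm]
    constructor
    · intro h
      obtain ⟨b, -, hb⟩ := of_hm_RI h
      rw [← hb]
      exact b.2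
    · intro h
      exact b_RI (𝔞 := AK (hst a) M) ⟨_, h⟩
  have hfaith : ∀ (a : S) g, (∀ x ∈ AF O z d a, ρ g x = x) → g = 1 := by
    intro a g hg
    apply hρ
    rw [map_one]
    ext y
    obtain ⟨b, hb, b', hb', -, rfl⟩ := AF_frac (O := O) hz (hS a a.2).2.1 hd1 hfr y
    rw [map_div₀, hg b hb, hg b' hb']
    rfl
  have hCh : ∀ a, Ch (R a) := by
    intro a
    rw [hR]
    have hft := AF_ft (O := O) z d a
    refine ch_res5 (hst a) ι (fun x => hfix x) (hfaith a) (AK_ne (hst a) (hfaith a))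
      (fun x hx g => AK_act (hst a) g x hx) ?_
    intro W hAW
    obtain ⟨j, hCW, hlo⟩ := lo_AF hz (hS a a.2).2.1 (hS a a.2).1 hd1 hAW
    refine ⟨TW W, AK_local (hst a) hAW hM1 (hs₀ a) (hsM a), pt_of6 (hst a) hAW ?_⟩
    obtain ⟨P, hP, hRP⟩ := exists_centre hCW
    rw [hlo, ← hRP]
    exact @hpt j P hP
  have hquot : ∀ a b : S, ι (h b / h a) = (b : K) / a := by
    intro a b
    rw [map_div₀, hh, hh]
  have hιinj : ∀ x y : F, ι x = ι y → x = y := fun x y hxy => ι.toRingHom.injective hxy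
  obtain ⟨r, T, hT, C, H, hAt⟩ := Pool.Agent.Y363.G.t_ATLAS O F hinjF True M₀ ⊤ S R h hCh hh0
    (fun a => Subfield.mem_top _) (fun _ _ x _ => Subfield.mem_top x)
    (fun a b => by
      rw [hmemR, hquot]
      exact FS_AF (hS b b.2).1)
    (fun a b f hf => by
      rw [hR] at hf
      have hf' : Ph ι f ∈ RI (AK (hst b) M) := mem_res.1 hf
      obtain ⟨k, hk⟩ := glue_RI3 (u := (b : K) / a) (FS_AF (hS b b.2).1) (hst a) (hst b)
        (fun g => by rw [map_div₀, (hS a a.2).2.2, (hS b b.2).2.2])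
        (AF_glue (hS a a.2).2.1 (hS b b.2).1 (hS b b.2).2.1) M _ hf'
      refine ⟨k, ?_⟩
      rw [hR, mem_res, map_mul, map_pow, Ph_hm, hquot]
      exact hk)
    (fun V hV => by
      obtain ⟨Φ, hΦ, hΦV⟩ := hval V hV
      refine ⟨⟨Φ, hΦ⟩, fun x hx => ?_⟩
      rw [hmemR] at hx
      exact hΦV x hx)
    (fun a x _ => by
      obtain ⟨b, hb, b', hb', hb0, hx⟩ := AF_frac (O := O) hz (hS a a.2).2.1 hd1 hfr (ι x)
      have hsplit : ∏ g : G, ρ g b' = b' * ∏ g ∈ Finset.univ.erase 1, ρ g b' := by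
        rw [← Finset.mul_prod_erase Finset.univ _ (Finset.mem_univ (1 : G)), map_one]
        rfl
      have hmem : ∏ g ∈ Finset.univ.erase (1 : G), ρ g b' ∈ AF O z d a :=
        Subalgebra.prod_mem _ fun g _ => hst a g b' hb'
      have hne : ∏ g : G, ρ g b' ≠ 0 :=
        Finset.prod_ne_zero_iff.2 fun g _ h0 => hb0 ((map_eq_zero _).1 h0)
      have hinv : ∀ g, ρ g (∏ g : G, ρ g b') = ∏ g : G, ρ g b' := by
        intro g
        rw [map_prod]
        refine Fintype.prod_equiv (Equiv.mulLeft g) _ _ fun g' => ?_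
        rw [Equiv.coe_mulLeft, map_mul, AlgEquiv.mul_apply]
      obtain ⟨y', hy'⟩ := (hfix _).1 hinv
      have hy'' : ι y' = ∏ g : G, ρ g b' := hy'
      have hy0 : y' ≠ 0 := by
        rintro rfl
        rw [map_zero] at hy''
        exact hne hy''.symm
      refine ⟨x * y', y', ?_, ?_, hy0, ?_⟩
      · rw [hmemR, map_mul, hy'', hx, hsplit]
        have e : b / b' * (b' * ∏ g ∈ Finset.univ.erase (1 : G), ρ g b') =
            b * ∏ g ∈ Finset.univ.erase (1 : G), ρ g b' := by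
          field_simp
        rw [e]
        exact Subalgebra.mul_mem _ hb hmem
      · rw [hmemR, hy'', hsplit]
        exact Subalgebra.mul_mem _ hb' hmem
      · rw [mul_div_cancel_right₀ _ hy0])
    (fun _ a => by
      have hs' := AK_mem (hst a) (M := M) (hs₀ a)
      rw [← map_pow] at hs'
      refine ⟨s₀ ^ (2 * (NT G).card), pow_ne_zero _ hs₀0, ?_⟩
      rw [hR, mem_res, Ph_hm, ι.commutes]
      exact hm_one_RI hs')
    (fun _ => ⟨n, hn1, fun a => by
      have hA : ∀ x ∈ AF O z d a, ∃ N₀ : ℕ, ∀ N, N₀ ≤ N → (a : K) ^ N * x ∈ FS O z (d * N) :=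
        fun x hx => AF_den (hS a a.2).2.1 (hS a a.2).1 hx
      refine ⟨?_, ?_, ?_⟩
      · rw [← hM n hnk]
        refine ⟨1, one_ne_zero, ?_⟩
        rw [one_smul, ← hdn]
        have h1 := (hS a a.2).1
        rw [← hh a] at h1
        exact h1
      · intro y hy
        have h1 : y ∈ sat (M₀ ^ n) := ⟨1, one_ne_zero, by rwa [one_smul]⟩
        rw [← hM n hnk] at h1
        obtain ⟨s, hs, hs'⟩ := h1
        refine ⟨s, hs, ?_⟩
        rw [hmemR, map_smul, map_div₀, hh, Algebra.smul_def, ← mul_div_assoc, ← Algebra.smul_def]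
        rw [← hdn] at hs'
        exact FS_AF hs'
      · intro f hf
        rw [hmemR] at hf
        obtain ⟨N₀, hN₀⟩ := hA _ hf
        refine ⟨N₀ + 1, fun N hN => ?_⟩
        have hkN : k₀ ≤ n * N := by
          calc k₀ ≤ n := hnk
            _ = n * 1 := (Nat.mul_one n).symm
            _ ≤ n * N := Nat.mul_le_mul_left _ (by omega)
        rw [← hM (n * N) hkN]
        refine ⟨1, one_ne_zero, ?_⟩
        have h1 := hN₀ N (by omega)
        have h2 : algebraMap F K (h a ^ N * f) = (a : K) ^ N * ι f := by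
          rw [map_mul, map_pow]
          congr 2
          exact hh a
        rw [one_smul, h2]
        have e : c * (n * N) = d * N := by rw [hdn]; ring
        rw [e]
        exact h1⟩)
  obtain ⟨I, _, zz, J, hmod⟩ := all_MODEL O F hinjF True M₀ hM₀ ⊤ (fun _ _ _ => Subfield.mem_top _)
    r T C H hAt
  have htop : (⊤ : Subfield F) = (algebraMap F F).fieldRange := by
    ext x
    constructor
    · exact fun _ => ⟨x, rfl⟩
    · exact fun _ => Subfield.mem_top _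
  rw [htop] at hmod
  obtain ⟨M', h1, h2, h3, h4, h5⟩ := Pool.Agent.Y246.G.t_HASM O F F hinjF True M₀ I zz J hmod
  exact ⟨M', h1, h2, h3, h4, h5 trivial⟩

section

open Pool.Agent.H918R2.Quad Pool.Agent.TH214.RM Pool.Agent.W418
open AlgebraicGeometry CategoryTheory CategoryTheory.Limits MvPolynomial NumberField

variable {E F K A : Type} [Field E] [NumberField E] [Field F] [Algebra E F] [Field K] [Algebra F K]
  [Algebra E K] [IsScalarTower E F K] [Algebra (𝓞 E) K] [IsScalarTower (𝓞 E) E K]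

theorem gq_good6 [Algebra (𝓞 E) F] [IsScalarTower (𝓞 E) E F] [FiniteDimensional F K] [IsGalois F K]
    {n : ℕ} (x : Fin (n + 1) → F) {m : ℕ} (z : Fin (m + 1) → K) (hz : ∀ j, z j ≠ 0)
    (hgen : IntermediateField.adjoin E (Set.range fun j => z j / z 0) = ⊤)
    (hlin : ∀ (σ : K ≃ₐ[F] K) j, σ (z j) ∈ Submodule.span (𝓞 E) (Set.range z))
    (ρ : (K ≃ₐ[F] K) →* (K ≃ₐ[𝓞 E] K)) (hρ : ∀ σ y, ρ σ y = σ y)
    (hpt : ∀ j (𝔮 : Ideal (CC (𝓞 E) z j)) [𝔮.IsPrime],
      InertiaCondition6 ρ (LocalSubring.ofPrime (CC (𝓞 E) z j) 𝔮).toSubring)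
    (c k₀ : ℕ) (hc : 1 ≤ c)
    (hq : ∀ k, k₀ ≤ k → ∀ f : F, algebraMap F K f ∈ Submodule.span E (Set.range z ^ (c * k)) ↔
      f ∈ Submodule.span E (Set.range x ^ k)) : GoodModule (𝓞 E) x := by
  classical
  have h3 : IsScalarTower (𝓞 E) F K := IsScalarTower.of_algebraMap_eq fun a => by
    rw [IsScalarTower.algebraMap_apply (𝓞 E) E K, IsScalarTower.algebraMap_apply E F K,
      IsScalarTower.algebraMap_apply (𝓞 E) E F]
  have hinj : Function.Injective (algebraMap (𝓞 E) K) := by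
    rw [IsScalarTower.algebraMap_eq (𝓞 E) E K]
    exact (algebraMap E K).injective.comp RingOfIntegers.coe_injective
  have hfin : Finite (K ≃ₐ[F] K) := inferInstance
  set M₀ : Submodule (𝓞 E) F := Submodule.span (𝓞 E) (Set.range x) with hM₀
  have hfg : M₀.FG := Submodule.fg_span (Set.finite_range x)
  have hpow : ∀ k, M₀ ^ k = Submodule.span (𝓞 E) (Set.range x ^ k) := fun k =>
    Submodule.span_pow _ _
  obtain ⟨M', hM'fg, hM'0, -, hreg', n', hn', hle, hge⟩ := gq_module6 (O := 𝓞 E) (F := F) hinj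
    exists_num ρ
    (by
      intro y
      constructor
      · intro hy
        have h4 : y ∈ (⊥ : IntermediateField F K) :=
          (IsGalois.mem_bot_iff_fixed y).2 fun σ => (hρ σ y).symm.trans (hy σ)
        exact IntermediateField.mem_bot.1 h4
      · rintro ⟨f, rfl⟩ σ
        rw [hρ]
        exact σ.commutes f)
    (by
      intro σ τ hστ
      ext y
      rw [← hρ, ← hρ, hστ])
    z hz
    (by
      intro S hO hS
      have h4 : ∀ e : E, algebraMap E K e ∈ S := by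
        intro e
        obtain ⟨a, b, hb, rfl⟩ := IsFractionRing.div_surjective (A := 𝓞 E) e
        rw [map_div₀, ← IsScalarTower.algebraMap_apply, ← IsScalarTower.algebraMap_apply]
        exact div_mem (hO a) (hO b)
      let S' : IntermediateField E K := { S with algebraMap_mem' := h4 }
      have h5 : (⊤ : IntermediateField E K) ≤ S' := by
        rw [← hgen, IntermediateField.adjoin_le_iff]
        rintro _ ⟨j, rfl⟩
        exact hS j 0
      rw [eq_top_iff]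
      intro y _
      exact h5 (IntermediateField.mem_top (x := y)))
    (fun σ j => by rw [hρ]; exact hlin σ j)
    hpt
    M₀ hfg c k₀ hc
    (by
      intro k hk f
      unfold FS
      rw [sat_iff, hpow, sat_iff, MN_eq]
      exact hq k hk f)
  refine Pool.Agent.Y223.INV.goodModule_of (E := E) hn' hM'fg hM'0 one_ne_zero ?_ ?_ hreg'
  · intro f hf
    rw [one_mul]
    have h4 := hle f hf
    rwa [hpow, sat_iff] at h4
  · intro y hy
    obtain ⟨c, hc, hcy⟩ := Pool.Agent.W418.exists_smul_span (O := 𝓞 E) (K := E)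
      (Set.range x ^ n') y hy
    rw [← hpow] at hcy
    obtain ⟨d, hd, hdy⟩ := hge _ hcy
    refine ⟨d * c, mul_ne_zero hd hc, ?_⟩
    rw [div_one, mul_smul]
    exact hdy

theorem gq_model_O6 [FiniteDimensional F K] [IsGalois F K] [CommRing A] [Algebra E A]
    {n : ℕ} (x : Fin (n + 1) → F)
    (π : MvPolynomial (Fin (n + 1)) E →ₐ[E] A)
    (hπ : Function.Surjective π) (𝒜 : ℕ → Submodule E A) [GradedAlgebra 𝒜]
    (h𝒜 : ∀ d, 𝒜 d = (homogeneousSubmodule (Fin (n + 1)) E d).map π.toLinearMap)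
    (hx : ∀ d, ∀ P ∈ homogeneousSubmodule (Fin (n + 1)) E d, π P = 0 ↔ aeval x P = 0)
    {m : ℕ} (z : Fin (m + 1) → K) (hz : ∀ j, z j ≠ 0)
    (hgen : IntermediateField.adjoin E (Set.range fun j => z j / z 0) = ⊤)
    (hlin : ∀ (σ : K ≃ₐ[F] K) j, σ (z j) ∈ Submodule.span (𝓞 E) (Set.range z))
    (ρ : (K ≃ₐ[F] K) →* (K ≃ₐ[𝓞 E] K)) (hρ : ∀ σ y, ρ σ y = σ y)
    (hpt : ∀ j (𝔮 : Ideal (CC (𝓞 E) z j)) [𝔮.IsPrime],
      InertiaCondition6 ρ (LocalSubring.ofPrime (CC (𝓞 E) z j) 𝔮).toSubring)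
    (c k₀ : ℕ) (hc : 1 ≤ c)
    (hq : ∀ k, k₀ ≤ k → ∀ f : F, algebraMap F K f ∈ Submodule.span E (Set.range z ^ (c * k)) ↔
      f ∈ Submodule.span E (Set.range x ^ k))
    {Y : Scheme.{0}} (f : Y ⟶ Spec (CommRingCat.of E)) (i : Y ≅ Proj 𝒜)
    (hi : i.hom ≫ GO.projStr 𝒜 = f) : GO.HasModel (𝓞 E) E f := by
  let _ : Algebra (𝓞 E) F := ((algebraMap E F).comp (algebraMap (𝓞 E) E)).toAlgebra
  have hst : IsScalarTower (𝓞 E) E F := IsScalarTower.of_algebraMap_eq fun _ => rfl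
  have hM := gq_good6 x z hz hgen hlin ρ hρ hpt c k₀ hc hq
  obtain ⟨ε, hε, hεgen, hε1⟩ := Pool.Agent.Y223.INV.exists_eps2 x π hπ 𝒜 h𝒜 hx
  exact hasModel_of_goodModule (O := 𝓞 E) 𝒜 ε hε hεgen x hε1 hM f i hi

end

end Pool.Agent.N864.GTN
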